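import Mathlib
import Pool.Agent.Work.MP_787500_nt.QF.FDefs

/-!
Residually symplectic representations: definitions.
-/

set_option autoImplicit false

namespace Pool.Agent.Work.MP_787500_nt.Parity

open Matrix

variable {G : Type*} [Group G] {E : Type*} [NormedField E] {n : ℕ}

/-- `z` is a product of a scalar of norm less than 1 and an element of `L` -/
def IsSmallIn (L : Set (Fin n → E)) (z : Fin n → E) : Prop :=
  ∃ a : E, ‖a‖ < 1 ∧ ∃ y ∈ L, z = a • y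

/-- There is a lattice `L` in `E ^ n` that is preserved by `ρ` and equal to its dual for the form `b`, and the
representation on `L` modulo the maximal ideal extends to a symplectic representation of the group generated by `G`
and an involution that acts on `G` by `κ`: there is a matrix `C` that preserves `L`, such that `b (x, C x) = 0`
for all `x`, and `C C = 1` and `C ρ(κ g) = ρ(g) C` hold modulo the maximal ideal. -/
def ResSympl (κ : G → G) (ρ : G →* Matrix (Fin n) (Fin n) E) (b : Matrix (Fin n) (Fin n) E) : Prop :=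
  ∃ (L : Set (Fin n → E)) (C : Matrix (Fin n) (Fin n) E),
    (∀ x, x ∈ L ↔ ∀ y ∈ L, ‖x ⬝ᵥ (b *ᵥ y)‖ ≤ 1) ∧ (∃ R : ℝ, ∀ x ∈ L, ‖x‖ ≤ R) ∧
    (∀ g, ∀ x ∈ L, ρ g *ᵥ x ∈ L) ∧ (∀ x ∈ L, C *ᵥ x ∈ L) ∧ (∀ x, x ⬝ᵥ (b *ᵥ (C *ᵥ x)) = 0) ∧
    (∀ x ∈ L, IsSmallIn L (C *ᵥ (C *ᵥ x) - x)) ∧
    ∀ g, ∀ x ∈ L, IsSmallIn L (C *ᵥ (ρ (κ g) *ᵥ x) - ρ g *ᵥ (C *ᵥ x))

end Pool.Agent.Work.MP_787500_nt.Parity
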