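import Mathlib
import Pool.Agent.Work.MP_787500_nt.QF.FDefs
import Pool.Agent.Work.MP_787500_nt.QG.RDefs

/-!
Parity of Bloch-Kato Selmer groups of conjugate self-dual representations that may be ramified at all odd primes:
definitions used in the statement of the theorem. The other definitions are in `PA/ParityDefs.lean`,
`GP/FinDefs.lean`, `HP/BKDefs.lean`, `LA/FDefs.lean`, `QW/FDefs.lean`, `QX/FDefs.lean`, `ER/FDefs.lean` and
`QG/RDefs.lean`.
-/

set_option autoImplicit false

namespace Pool.Agent.Work.MP_787500_nt.Parity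

open Matrix

variable {G : Type*} [Group G] [TopologicalSpace G] {E : Type*} [NormedField E] {n : ℕ}

/-- After the twist by a continuous character `χ` that is congruent to 1 modulo the maximal ideal, trivial on `I` and
inverted by `κ`, the representation `ρ` extends to a symplectic representation of the group generated by `G` and an
involution that acts on `G` by `κ`: the involution acts by `C`, and the symplectic form is `b (x, C y)`. -/
def TwistSympl (I : Set G) (κ : G → G) (ρ : G →* Matrix (Fin n) (Fin n) E)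
    (b : Matrix (Fin n) (Fin n) E) : Prop :=
  ∃ (χ : G →* E) (C : Matrix (Fin n) (Fin n) E), Continuous χ ∧ (∀ σ ∈ I, χ σ = 1) ∧
    (∀ σ, ‖χ σ - 1‖ < 1 ∧ χ (κ σ) * χ σ = 1) ∧ C * C = 1 ∧ (b * C)ᵀ = -(b * C) ∧
    ∀ σ, χ (κ σ) • (C * ρ (κ σ)) = χ σ • (ρ σ * C)

/-- One of the following holds. `n = 2` and the determinant is congruent to 1 modulo the maximal ideal. `ρ` is
residually symplectic. `ρ` is a twist of the restriction of a symplectic representation. `S` holds, and either the
image of `ρ` is pro-2, or the residue field of `E` has two elements and `ρ` is pro-2 on a normal subgroup of index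
dividing 6. -/
def AdmissibleR (S : Prop) (I : Set G) (κ : G → G) (ρ : G →* Matrix (Fin n) (Fin n) E)
    (b : Matrix (Fin n) (Fin n) E) : Prop :=
  (n = 2 ∧ ∀ σ, ‖(ρ σ).det - 1‖ < 1) ∨ ResSympl κ ρ b ∨ TwistSympl I κ ρ b ∨
    (S ∧ (ProTwoOn ⊤ ρ ∨ ((∀ x : E, ‖x‖ ≤ 1 → ‖x‖ < 1 ∨ ‖x - 1‖ < 1) ∧
      ∃ N : Subgroup G, N.Normal ∧ N.index ∣ 6 ∧ ProTwoOn N ρ)))

end Pool.Agent.Work.MP_787500_nt.Parity
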