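import Mathlib
import Pool.Agent.Work.MP_787500_nt.LX.X5_Par
import Pool.Agent.Work.MP_787500_nt.QW.FDefs

/-!
The parity statement `ParityBKA` over `E (√l)` implies the parity statement over `E`.

* `cob_iff`, `coc_iff`, `perp_iff'`, `fix_finrank`: coordinates (as in `LX/X5_Par.lean`).
* `condExp_ext`: the number `condExp` does not change.
* `parityBKA_ext`: THE DESCENT.
-/

set_option autoImplicit false
set_option linter.unusedSectionVars false

namespace Pool.Agent.Work.MP_787500_nt.QG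

open Matrix
open Pool.Agent.Work.MP_787500_nt.PA (toE)
open Pool.Agent.Work.MP_787500_nt.GP
open Pool.Agent.Work.MP_787500_nt.LX

variable {E E' : Type*} [NormedField E] [NormedAlgebra ℚ_[2] E] [FiniteDimensional ℚ_[2] E]
  [NormedField E'] [NormedAlgebra ℚ_[2] E'] [FiniteDimensional ℚ_[2] E'] {ι : E →ₐ[ℚ_[2]] E'}
  {l : E} {m : E'} {n : ℕ} {G : Type*} [Group G] [TopologicalSpace G]

private theorem map_mulVec' (A : Matrix (Fin n) (Fin n) E) (x y : Fin n → E) :
    (A.map ι) *ᵥ (fun i => ι (x i) + ι (y i) * m) =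
      fun i => ι ((A *ᵥ x) i) + ι ((A *ᵥ y) i) * m := by
  funext i
  simp only [mulVec, dotProduct, Matrix.map_apply, map_sum, map_mul, mul_add,
    Finset.sum_add_distrib, Finset.sum_mul, mul_assoc]

private theorem map_dot (x y y' : Fin n → E) :
    (fun i => ι (x i)) ⬝ᵥ (fun i => ι (y i) + ι (y' i) * m) = ι (x ⬝ᵥ y) + ι (x ⬝ᵥ y') * m := by
  simp only [dotProduct, map_sum, map_mul, mul_add, Finset.sum_add_distrib, Finset.sum_mul,
    mul_assoc]

private theorem pr_inj (h : SqrtExt ι l m) (hl0 : l ≠ 0) {x y x' y' : Fin n → E}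
    (e : (fun i => ι (x i) + ι (y i) * m) = fun i => ι (x' i) + ι (y' i) * m) :
    x = x' ∧ y = y' :=
  ⟨funext fun i => (h.inj hl0 (congrFun e i)).1, funext fun i => (h.inj hl0 (congrFun e i)).2⟩

private theorem eq_extW (h : SqrtExt ι l m) (hl0 : l ≠ 0) {X : Type*}
    {W : Submodule E (X → Fin n → E)} {W' : Submodule E' (X → Fin n → E')}
    (hW : ∀ x y, (fun t i => ι (x t i) + ι (y t i) * m) ∈ W' ↔ x ∈ W ∧ y ∈ W) :
    W' = extW h W := by
  ext z
  choose x y hz using fun t i => h.split (z t i)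
  have e : z = fun t i => ι (x t i) + ι (y t i) * m := funext fun t => funext fun i => hz t i
  rw [e, hW, pair_mem h hl0]

private theorem cob_iff (h : SqrtExt ι l m) (hl0 : l ≠ 0) {X : Type*}
    (A : X → Matrix (Fin n) (Fin n) E) (x y : X → Fin n → E) :
    (fun t i => ι (x t i) + ι (y t i) * m) ∈ Parity.coboundaries (fun t => (A t).map ι) ↔
      x ∈ Parity.coboundaries A ∧ y ∈ Parity.coboundaries A := by
  have key : ∀ (v w : Fin n → E) (t : X), (A t).map ι *ᵥ (fun i => ι (v i) + ι (w i) * m) -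
      (fun i => ι (v i) + ι (w i) * m) =
      fun i => ι ((A t *ᵥ v - v) i) + ι ((A t *ᵥ w - w) i) * m := by
    intro v w t
    rw [map_mulVec']
    funext i
    simp only [Pi.sub_apply, map_sub]
    ring
  constructor
  · rintro ⟨v', hv'⟩
    choose v w hvw using fun i => h.split (v' i)
    have e : v' = fun i => ι (v i) + ι (w i) * m := funext hvw
    have h1 : ∀ t, x t = A t *ᵥ v - v ∧ y t = A t *ᵥ w - w := by
      intro t
      refine pr_inj h hl0 ?_
      rw [← key, ← e]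
      exact hv' t
    exact ⟨⟨v, fun t => (h1 t).1⟩, ⟨w, fun t => (h1 t).2⟩⟩
  · rintro ⟨⟨v, hv⟩, ⟨w, hw⟩⟩
    refine ⟨fun i => ι (v i) + ι (w i) * m, fun t => ?_⟩
    show (fun i => ι (x t i) + ι (y t i) * m) = _
    rw [key, hv, hw]

section cocycles

variable {X : Type*} [Group X] [TopologicalSpace X]

private theorem coc_iff (h : SqrtExt ι l m) (hl0 : l ≠ 0)
    (A : X → Matrix (Fin n) (Fin n) E) (x y : X → Fin n → E) :
    Parity.IsCocycle (fun t => (A t).map ι) (fun t i => ι (x t i) + ι (y t i) * m) ↔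
      Parity.IsCocycle A x ∧ Parity.IsCocycle A y := by
  obtain ⟨re, im, hre, him, -, hre1, him1, -⟩ := h.exists_coord hl0
  have key : ∀ (v w v' w' : Fin n → E) (t : X), (fun i => ι (v i) + ι (w i) * m) +
      (A t).map ι *ᵥ (fun i => ι (v' i) + ι (w' i) * m) =
      fun i => ι ((v + A t *ᵥ v') i) + ι ((w + A t *ᵥ w') i) * m := by
    intro v w v' w' t
    rw [map_mulVec']
    funext i
    simp only [Pi.add_apply, map_add]
    ring
  constructor
  · rintro ⟨hc, hz⟩
    have h1 : ∀ s t, x (s * t) = x s + A s *ᵥ x t ∧ y (s * t) = y s + A s *ᵥ y t := by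
      intro s t
      refine pr_inj h hl0 ?_
      rw [← key]
      exact hz s t
    have hci : ∀ i, Continuous fun t => ι (x t i) + ι (y t i) * m := fun i =>
      (continuous_apply i).comp hc
    refine ⟨⟨continuous_pi fun i => ?_, fun s t => (h1 s t).1⟩,
      ⟨continuous_pi fun i => ?_, fun s t => (h1 s t).2⟩⟩
    · have h2 := hre.comp (hci i)
      refine h2.congr fun t => ?_
      exact hre1 _ _
    · have h2 := him.comp (hci i)
      refine h2.congr fun t => ?_
      exact him1 _ _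
  · rintro ⟨⟨hx, hx'⟩, ⟨hy, hy'⟩⟩
    refine ⟨continuous_pi fun i => ?_, fun s t => ?_⟩
    · exact (h.cont.comp ((continuous_apply i).comp hx)).add
        ((h.cont.comp ((continuous_apply i).comp hy)).mul continuous_const)
    · show (fun i => ι (x (s * t) i) + ι (y (s * t) i) * m) = _
      rw [key, hx', hy']

private theorem perp_iff' (h : SqrtExt ι l m) (hl0 : l ≠ 0) {χ : X → ℤ_[2]}
    (B : X → Matrix (Fin n) (Fin n) E) (b : Matrix (Fin n) (Fin n) E)
    (L : Submodule E (X → Fin n → E)) (x y : X → Fin n → E) :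
    Parity.IsPerp (fun t => toE E' (χ t)) (fun t => (B t).map ι) (b.map ι) (extW h L)
      (fun t i => ι (x t i) + ι (y t i) * m) ↔
      Parity.IsPerp (fun t => toE E (χ t)) B b L x ∧ Parity.IsPerp (fun t => toE E (χ t)) B b L y := by
  obtain ⟨re, im, hre, him, -, hre1, him1, hrea, hima, hres, hims⟩ := h.exists_coord hl0
  have hres' : ∀ z z', re (z - z') = re z - re z' := fun z z' => by
    have := hrea (z - z') z'
    rw [sub_add_cancel] at this
    rw [this, add_sub_cancel_right]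
  have hims' : ∀ z z', im (z - z') = im z - im z' := fun z z' => by
    have := hima (z - z') z'
    rw [sub_add_cancel] at this
    rw [this, add_sub_cancel_right]
  -- the cup product with a vector over `E`
  have key : ∀ (v : Fin n → E) (s t : X), (fun i => ι (v i)) ⬝ᵥ (b.map ι *ᵥ ((B s).map ι *ᵥ
      fun i => ι (x t i) + ι (y t i) * m)) =
      ι (v ⬝ᵥ (b *ᵥ (B s *ᵥ x t))) + ι (v ⬝ᵥ (b *ᵥ (B s *ᵥ y t))) * m := by
    intro v s t
    rw [map_mulVec', map_mulVec', map_dot]
  constructor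
  · rintro ⟨hc, hz⟩
    rw [coc_iff h hl0] at hc
    have h1 : ∀ v ∈ L, (∃ z : X → E, Continuous z ∧ ∀ s t, v s ⬝ᵥ (b *ᵥ (B s *ᵥ x t)) =
        z s + toE E (χ s) * z t - z (s * t)) ∧ ∃ z : X → E, Continuous z ∧
        ∀ s t, v s ⬝ᵥ (b *ᵥ (B s *ᵥ y t)) = z s + toE E (χ s) * z t - z (s * t) := by
      intro v hv
      obtain ⟨z, hzc, hz'⟩ := hz (fun t i => ι (v t i)) ⟨v, hv, 0, L.zero_mem, fun t i => by simp⟩
      have h2 : ∀ s t, ι (v s ⬝ᵥ (b *ᵥ (B s *ᵥ x t))) + ι (v s ⬝ᵥ (b *ᵥ (B s *ᵥ y t))) * m =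
          z s + ι (toE E (χ s)) * z t - z (s * t) := by
        intro s t
        rw [← key, map_toE]
        exact hz' s t
      refine ⟨⟨fun t => re (z t), hre.comp hzc, fun s t => ?_⟩,
        ⟨fun t => im (z t), him.comp hzc, fun s t => ?_⟩⟩
      · have h3 := congrArg re (h2 s t)
        rw [hre1, hres', hrea, hres] at h3
        exact h3
      · have h3 := congrArg im (h2 s t)
        rw [him1, hims', hima, hims] at h3
        exact h3
    exact ⟨⟨hc.1, fun v hv => (h1 v hv).1⟩, ⟨hc.2, fun v hv => (h1 v hv).2⟩⟩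
  · rintro ⟨⟨hx, hx'⟩, ⟨hy, hy'⟩⟩
    refine ⟨(coc_iff h hl0 B x y).2 ⟨hx, hy⟩, ?_⟩
    rintro v' ⟨v, hv, w, hw, hvw⟩
    obtain ⟨z1, c1, e1⟩ := hx' v hv
    obtain ⟨z2, c2, e2⟩ := hy' v hv
    obtain ⟨z3, c3, e3⟩ := hx' w hw
    obtain ⟨z4, c4, e4⟩ := hy' w hw
    refine ⟨fun t => ι (z1 t) + ι (z2 t) * m + (ι (z3 t) + ι (z4 t) * m) * m, ?_, fun s t => ?_⟩
    · exact (((h.cont.comp c1).add ((h.cont.comp c2).mul continuous_const))).add
        ((((h.cont.comp c3).add ((h.cont.comp c4).mul continuous_const))).mul continuous_const)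
    · have e5 : v' s = (fun i => ι (v s i)) + m • fun i => ι (w s i) := by
        funext i
        rw [hvw]
        simp only [Pi.add_apply, Pi.smul_apply, smul_eq_mul]
        ring
      rw [e5, add_dotProduct, smul_dotProduct, key, key, e1, e2, e3, e4]
      beta_reduce
      rw [← map_toE ι]
      simp only [map_add, map_sub, map_mul, smul_eq_mul]
      ring

end cocycles

private theorem fix_finrank (h : SqrtExt ι l m) (hl0 : l ≠ 0) {X : Type*}
    (A : X → Matrix (Fin n) (Fin n) E) :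
    Module.finrank E' (Parity.fixedBy fun t => (A t).map ι) =
      Module.finrank E (Parity.fixedBy A) := by
  let W : Submodule E (Unit → Fin n → E) := (Parity.fixedBy A).comap (LinearMap.proj ())
  let W' : Submodule E' (Unit → Fin n → E') :=
    (Parity.fixedBy fun t => (A t).map ι).comap (LinearMap.proj ())
  have h1 : W' = extW h W := by
    refine eq_extW h hl0 fun x y => ?_
    have key : ∀ t, (A t).map ι *ᵥ (fun i => ι (x () i) + ι (y () i) * m) =
        fun i => ι ((A t *ᵥ x ()) i) + ι ((A t *ᵥ y ()) i) * m := fun t => map_mulVec' _ _ _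
    constructor
    · intro hz
      have h2 : ∀ t, A t *ᵥ x () = x () ∧ A t *ᵥ y () = y () := by
        intro t
        refine pr_inj h hl0 ?_
        rw [← key]
        exact hz t
      exact ⟨fun t => (h2 t).1, fun t => (h2 t).2⟩
    · rintro ⟨hx, hy⟩ t
      show (A t).map ι *ᵥ (fun i => ι (x () i) + ι (y () i) * m) =
        fun i => ι (x () i) + ι (y () i) * m
      rw [key]
      have h2 : A t *ᵥ x () = x () := hx t
      have h3 : A t *ᵥ y () = y () := hy t
      rw [h2, h3]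
  have h2 : Module.finrank E W = Module.finrank E (Parity.fixedBy A) :=
    ((LinearEquiv.funUnique Unit E (Fin n → E)).submoduleMap W |>.trans (LinearEquiv.ofEq _ _ (by
      ext v
      constructor
      · rintro ⟨x, hx, rfl⟩
        exact hx
      · intro hv
        exact ⟨fun _ => v, hv, rfl⟩))).finrank_eq
  have h3 : Module.finrank E' W' =
      Module.finrank E' (Parity.fixedBy fun t => (A t).map ι) :=
    ((LinearEquiv.funUnique Unit E' (Fin n → E')).submoduleMap W' |>.trans (LinearEquiv.ofEq _ _ (by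
      ext v
      constructor
      · rintro ⟨x, hx, rfl⟩
        exact hx
      · intro hv
        exact ⟨fun _ => v, hv, rfl⟩))).finrank_eq
  rw [← h2, ← h3, h1, extW_finrank h hl0]

private theorem res_iff {F : Type*} [NormedField F] {I : Subgroup G}
    (A : G → Matrix (Fin n) (Fin n) F) (z : G → Fin n → F) :
    (∃ v : Fin n → F, ∀ σ ∈ I, z σ = A σ *ᵥ v - v) ↔
      (fun σ : I => z σ) ∈ Parity.coboundaries fun σ : I => A σ :=
  ⟨fun ⟨v, hv⟩ => ⟨v, fun σ => hv σ σ.2⟩, fun ⟨v, hv⟩ => ⟨v, fun σ hσ => hv ⟨σ, hσ⟩⟩⟩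

theorem commOn_ext (ι : E →ₐ[ℚ_[2]] E') {I : Subgroup G} {ρ : G →* Matrix (Fin n) (Fin n) E} :
    Parity.CommOn I (mapRep ι ρ) ↔ Parity.CommOn I ρ := by
  have hinj : Function.Injective fun A : Matrix (Fin n) (Fin n) E => A.map ι :=
    Matrix.map_injective (RingHom.injective (ι : E →+* E'))
  refine forall₂_congr fun σ _ => forall₂_congr fun τ _ => ?_
  rw [mapRep_apply, mapRep_apply, ← Matrix.map_mul, ← Matrix.map_mul]
  exact hinj.eq_iff

open scoped Classical in
theorem condExp_ext (h : SqrtExt ι l m) (hl0 : l ≠ 0) {I : Subgroup G}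
    {ρ : G →* Matrix (Fin n) (Fin n) E} :
    Parity.condExp I (mapRep ι ρ) = Parity.condExp I ρ := by
  have h1 : Module.finrank E' (Parity.fixedBy fun σ : I => mapRep ι ρ σ) =
      Module.finrank E (Parity.fixedBy fun σ : I => ρ σ) := fix_finrank h hl0 fun σ : I => ρ σ
  unfold Parity.condExp
  rw [h1]
  congr 1
  exact if_congr (commOn_ext ι) rfl rfl

theorem parityBKA_ext (h : SqrtExt ι l m) (hl0 : l ≠ 0) {N : Set (Subgroup G)} {χ : G → ℤ_[2]}
    {κ : G → G} {ρ : G →* Matrix (Fin n) (Fin n) E} {b : Matrix (Fin n) (Fin n) E}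
    {D : Subgroup G} {a : ℕ}
    (hp : Parity.ParityBKA N (fun g => toE E' (χ g)) κ (mapRep ι ρ) (b.map ι) D a) :
    Parity.ParityBKA N (fun g => toE E (χ g)) κ ρ b D a := by
  intro L hL
  have c1 : Parity.coboundaries (fun σ : D => mapRep ι ρ σ) =
      extW h (Parity.coboundaries fun σ : D => ρ σ) :=
    eq_extW h hl0 fun x y => cob_iff h hl0 (fun σ : D => ρ σ) x y
  have c2 : Parity.cocycles (fun σ : D => mapRep ι ρ σ) =
      extW h (Parity.cocycles fun σ : D => ρ σ) :=
    eq_extW h hl0 fun x y => coc_iff h hl0 (fun σ : D => ρ σ) x y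
  have c3 : Parity.coboundaries (mapRep ι ρ) = extW h (Parity.coboundaries ρ) :=
    eq_extW h hl0 fun x y => cob_iff h hl0 (fun σ : G => ρ σ) x y
  have c4 : Parity.selmerBK N (fun g => toE E' (χ g)) κ (mapRep ι ρ) (b.map ι) D (extW h L) =
      extW h (Parity.selmerBK N (fun g => toE E (χ g)) κ ρ b D L) := by
    refine eq_extW h hl0 fun x y => ?_
    have d1 := coc_iff h hl0 (fun σ : G => ρ σ) x y
    have d2 : (fun (σ : D) i => ι (x σ i) + ι (y σ i) * m) ∈ extW h L ↔
        (fun σ : D => x σ) ∈ L ∧ (fun σ : D => y σ) ∈ L :=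
      pair_mem h hl0 L (fun σ : D => x σ) (fun σ : D => y σ)
    have d3 : Parity.IsPerp (fun σ : D => toE E' (χ σ)) (fun σ : D => mapRep ι ρ (κ σ))
        (b.map ι) (extW h L) (fun (σ : D) i => ι (x (κ σ) i) + ι (y (κ σ) i) * m) ↔
        Parity.IsPerp (fun σ : D => toE E (χ σ)) (fun σ : D => ρ (κ σ)) b L
          (fun σ : D => x (κ σ)) ∧
        Parity.IsPerp (fun σ : D => toE E (χ σ)) (fun σ : D => ρ (κ σ)) b L
          (fun σ : D => y (κ σ)) :=
      perp_iff' h hl0 (χ := fun σ : D => χ σ) (fun σ : D => ρ (κ σ)) b L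
        (fun σ : D => x (κ σ)) (fun σ : D => y (κ σ))
    have d4 : ∀ I : Subgroup G, (∃ v : Fin n → E', ∀ σ ∈ I,
        (fun i => ι (x σ i) + ι (y σ i) * m) = mapRep ι ρ σ *ᵥ v - v) ↔
        (∃ v : Fin n → E, ∀ σ ∈ I, x σ = ρ σ *ᵥ v - v) ∧
          ∃ v : Fin n → E, ∀ σ ∈ I, y σ = ρ σ *ᵥ v - v := by
      intro I
      have h1 := cob_iff h hl0 (fun σ : I => ρ σ) (fun σ : I => x σ) (fun σ : I => y σ)
      have e1 := res_iff (I := I) (fun σ => ρ σ) x
      have e2 := res_iff (I := I) (fun σ => ρ σ) y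
      have e3 := res_iff (I := I) (fun σ => mapRep ι ρ σ) (fun σ i => ι (x σ i) + ι (y σ i) * m)
      exact e3.trans (h1.trans (and_congr e1.symm e2.symm))
    constructor
    · rintro ⟨h1, h2, h3, h4⟩
      have h1' := d1.1 h1
      exact ⟨⟨h1'.1, fun I hI => ((d4 I).1 (h2 I hI)).1, (d2.1 h3).1, (d3.1 h4).1⟩,
        ⟨h1'.2, fun I hI => ((d4 I).1 (h2 I hI)).2, (d2.1 h3).2, (d3.1 h4).2⟩⟩
    · rintro ⟨⟨h1, h2, h3, h4⟩, ⟨h1', h2', h3', h4'⟩⟩
      exact ⟨d1.2 ⟨h1, h1'⟩, fun I hI => (d4 I).2 ⟨h2 I hI, h2' I hI⟩, d2.2 ⟨h3, h3'⟩,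
        d3.2 ⟨h4, h4'⟩⟩
  have c5 : Module.finrank E' (Parity.fixedBy fun σ : G => mapRep ι ρ σ) =
      Module.finrank E (Parity.fixedBy fun σ : G => ρ σ) := fix_finrank h hl0 fun σ : G => ρ σ
  have c6 : Module.finrank E' (Parity.fixedBy fun σ : D => mapRep ι ρ σ) =
      Module.finrank E (Parity.fixedBy fun σ : D => ρ σ) :=
    fix_finrank h hl0 fun σ : D => ρ σ
  obtain ⟨e1, e2, e3, e4⟩ := hp (extW h L) (by
    rw [c1, c2]
    exact ⟨extW_mono h hL.1, extW_mono h hL.2⟩)
  rw [c4] at e2 e3 e4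
  rw [c3] at e3 e4
  have f1 : FiniteDimensional E L := (extW_fin h hl0 L).1 e1
  have f2 : FiniteDimensional E (Parity.selmerBK N (fun g => toE E (χ g)) κ ρ b D L) :=
    (extW_fin h hl0 _).1 e2
  have f3 : Parity.coboundaries ρ ≤ Parity.selmerBK N (fun g => toE E (χ g)) κ ρ b D L := by
    intro x hx
    have h1 := (pair_mem h hl0 _ x 0).1 (e3 ((pair_mem h hl0 _ x 0).2 ⟨hx, Submodule.zero_mem _⟩))
    exact h1.1
  refine ⟨f1, f2, f3, ?_⟩
  rw [extW_dim h hl0 f3, c5, c1, extW_dim h hl0 hL.1, c6] at e4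
  exact e4

end Pool.Agent.Work.MP_787500_nt.QG
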