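import Mathlib
import Pool.Agent.Work.MP_787500_nt.QU.Inst
import Pool.Agent.Work.MP_787500_nt.QW.FDefs
import Pool.Agent.Work.MP_787500_nt.QW.Sys
import Pool.Agent.Work.MP_787500_nt.EV.App

/-!
The vectors fixed by inertia at a prime that does not divide `D`.
-/

set_option autoImplicit false
set_option linter.unusedSectionVars false

namespace Pool.Agent.Work.MP_787500_nt.QG

open Matrix NumberField
open Pool.Agent.Work.MP_787500_nt.HP (inr stb)
open Pool.Agent.Work.MP_787500_nt.KS (iK)
open Pool.Agent.Work.MP_787500_nt.GA (jQ HQ)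

universe u w

variable {K : Type u} [Field K] [NumberField K] {c : AlgebraicClosure K ≃+* AlgebraicClosure K}
  {P : ℕ → Ideal (𝓞 (AlgebraicClosure K))} {E : Type w} [NormedField E] [NormedAlgebra ℚ_[2] E]
  {n : ℕ}

/-- the inertia group as a subgroup of the decomposition group over the rational numbers -/
theorem inr_iff {T : Finset ℕ} (p : T) {g : AbsGal K} :
    (∃ i ∈ ((inr (P p)).subgroupOf (stb (P p)) : Subgroup (HQ c P (some (some p)))),
      iK K g = jQ c P (some (some p)) i) ↔ g ∈ (P p).inertia (AbsGal K) := by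
  rw [← QW.emb_refl_inr]
  constructor
  · rintro ⟨i, hi, h⟩
    rw [h]
    exact hi
  · intro h
    exact ⟨⟨iK K g, HP.inr_le_stb _ h⟩, h, rfl⟩

theorem VI_eq {T : Finset ℕ} (p : T) (ρ : AbsGal K → Matrix (Fin n) (Fin n) E) :
    EV.VI (iK K) (jQ c P (some (some p))) ((inr (P p)).subgroupOf (stb (P p))) ρ =
      Parity.fixedBy (fun σ : (P p).inertia (AbsGal K) => ρ σ) := by
  ext v
  rw [EV.mem_VI]
  exact ⟨fun h σ => h σ ((inr_iff p).2 σ.2), fun h g hg => h ⟨g, (inr_iff p).1 hg⟩⟩

end Pool.Agent.Work.MP_787500_nt.QG
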