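import Mathlib
import Pool.Agent.Work.MP_787500_nt.QG.CondV
import Pool.Agent.Work.MP_787500_nt.KI.CondA
import Pool.Agent.Work.MP_787500_nt.KI.LevA
import Pool.Agent.Work.MP_787500_nt.QL.TameQ
import Pool.Agent.Work.MP_787500_nt.KR.NZero

/-!
Inertia acts on `V` by commuting matrices if and only if it acts on the level 1 by commuting matrices.

* `pow_two_ker`, `one_of_ker`: the kernels of the actions on `T / l ^ k T`.
* `comm_iff`: THE COMPARISON.
-/

set_option autoImplicit false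
set_option linter.unusedSectionVars false

namespace Pool.Agent.Work.MP_787500_nt.QG

open Matrix NumberField
open Pool.Agent.Work.MP_787500_nt.GP (A0 OE bil Lat inT stabD EvPow actN lamN MN bN mq Wq actQ IsAct)
open Pool.Agent.Work.MP_787500_nt.KR (FSys LocRep fullC fullK fullQ big kerT mem_kerT mem_kerT_iff)
open Pool.Agent.Work.MP_787500_nt.PA (toE cyc)
open Pool.Agent.Work.MP_787500_nt.HP (inr stb cyQ)
open Pool.Agent.Work.MP_787500_nt.KS (iK)
open Pool.Agent.Work.MP_787500_nt.GA (jQ HQ SQ)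
open Pool.Agent.Work.MP_787500_nt.QU (Inst)
open Pool.Agent.Work.MP_787500_nt.QW (Ari)
open Pool.Agent.Work.MP_787500_nt.KI (Crd)

universe u w

section ker

variable {E : Type*} [NormedField E] [NormedAlgebra ℚ_[2] E] [FiniteDimensional ℚ_[2] E] {n : ℕ}
  {G : Type*} [Group G] {T : Submodule (OE E) (Fin n → E)} {l : OE E}
  {ρ : G →* Matrix (Fin n) (Fin n) E}

theorem pow_two_ker (hl0 : (l : E) ≠ 0) (hlm : ∀ x : E, ‖x‖ < 1 → ‖x‖ ≤ ‖(l : E)‖)
    (hst : ∀ g, ∀ x ∈ T, ρ g *ᵥ x ∈ T) {g : G} (hg : g ∈ kerT T (l : E) ρ hst) (k : ℕ) :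
    g ^ 2 ^ k ∈ kerT T ((l : E) ^ (k + 1)) ρ hst := by
  -- `2 = l u`
  have h2l : ∃ u : OE E, (2 : E) = (l : E) * (u : E) := by
    refine ⟨⟨2 / (l : E), ?_⟩, by
      show (2 : E) = (l : E) * (2 / (l : E))
      rw [mul_div_cancel₀ _ hl0]⟩
    show ‖2 / (l : E)‖ ≤ 1
    rw [norm_div, div_le_one (norm_pos_iff.2 hl0)]
    refine hlm _ ?_
    have h6 := Gn.norm_p 2 E
    push_cast at h6
    rw [h6]
    norm_num
  obtain ⟨u, hu⟩ := h2l
  have key : ∀ k : ℕ, ∀ x ∈ T, ∃ y ∈ T, ρ (g ^ 2 ^ k) *ᵥ x - x = (l : E) ^ (k + 1) • y := by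
    intro k
    induction k with
    | zero =>
      intro x hx
      refine ⟨ρ g *ᵥ ((l : E)⁻¹ • x) - (l : E)⁻¹ • x, hg _ ?_, ?_⟩
      · rw [smul_smul, mul_inv_cancel₀ hl0, one_smul]
        exact hx
      · rw [pow_zero, pow_one, zero_add, pow_one, mulVec_smul, ← smul_sub, smul_smul,
          mul_inv_cancel₀ hl0, one_smul]
    | succ k ih =>
      intro x hx
      obtain ⟨y, hy, h1⟩ := ih x hx
      obtain ⟨z, hz, h2⟩ := ih y hy
      refine ⟨l ^ k • z + u • y, T.add_mem (T.smul_mem _ hz) (T.smul_mem _ hy), ?_⟩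
      set A := ρ (g ^ 2 ^ k) with hA
      have h3 : ρ (g ^ 2 ^ (k + 1)) = A * A := by
        rw [hA, ← map_mul, ← pow_add, ← two_mul, ← pow_succ']
      have h4 : ρ (g ^ 2 ^ (k + 1)) *ᵥ x - x =
          (A *ᵥ (A *ᵥ x - x) - (A *ᵥ x - x)) + (2 : E) • (A *ᵥ x - x) := by
        rw [h3, ← mulVec_mulVec, mulVec_sub, two_smul]
        abel
      rw [h4, h1, mulVec_smul, ← smul_sub, h2, hu]
      have h5 : l ^ k • z = (l : E) ^ k • z := rfl
      have h6 : u • y = (u : E) • y := rfl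
      rw [h5, h6, smul_add, smul_smul, smul_smul, smul_smul, smul_smul]
      congr 1
      · congr 1
        ring
      · congr 1
        ring
  intro x hx
  obtain ⟨y, hy, h1⟩ := key k _ hx
  have h2 : (l : E) ^ (k + 1) • (ρ (g ^ 2 ^ k) *ᵥ x - x) = (l : E) ^ (k + 1) • y := by
    rw [← h1, mulVec_smul, smul_sub]
  rw [smul_right_injective _ (pow_ne_zero _ hl0) h2]
  exact hy

/-- an element of all the kernels acts trivially -/
theorem one_of_ker (hl0 : (l : E) ≠ 0) (hl1 : ‖(l : E)‖ < 1) (hst : ∀ g, ∀ x ∈ T, ρ g *ᵥ x ∈ T)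
    (hbdd : ∃ R : ℝ, ∀ x ∈ T, ‖x‖ ≤ R)
    (hopn : ∃ r : ℝ, 0 < r ∧ ∀ x : Fin n → E, ‖x‖ < r → x ∈ T) {g : G}
    (hg : ∀ k : ℕ, g ∈ kerT T ((l : E) ^ (k + 1)) ρ hst) : ρ g = 1 := by
  obtain ⟨R, hR⟩ := hbdd
  obtain ⟨r, hr, hr'⟩ := hopn
  have hR0 : 0 ≤ R := (norm_nonneg _).trans (hR 0 T.zero_mem)
  have hl0' : 0 < ‖(l : E)‖ := norm_pos_iff.2 hl0
  refine QV.mat_ext fun y => ?_
  rw [one_mulVec, ← sub_eq_zero]
  -- a power of `l` maps `y` into the lattice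
  obtain ⟨m, hm⟩ : ∃ m : ℕ, (l : E) ^ m • y ∈ T := by
    obtain ⟨m, hm⟩ := exists_pow_lt_of_lt_one (show 0 < r / (‖y‖ + 1) by positivity) hl1
    refine ⟨m, hr' _ ?_⟩
    rw [norm_smul, norm_pow]
    have h1 : 0 < ‖y‖ + 1 := by positivity
    rw [lt_div_iff₀ h1] at hm
    have h2 : 0 ≤ ‖(l : E)‖ ^ m := by positivity
    nlinarith [norm_nonneg y]
  have h1 : ∀ j : ℕ, ‖ρ g *ᵥ y - y‖ ≤ ‖(l : E)‖ ^ j * R := by
    intro j
    have h2 := hg (m + j) (((l : E) ^ j)⁻¹ • y) (by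
      rw [smul_smul]
      have e1 : (l : E) ^ (m + j + 1) * ((l : E) ^ j)⁻¹ = (l : E) * (l : E) ^ m := by
        rw [show m + j + 1 = 1 + m + j by ring, pow_add, mul_assoc, mul_inv_cancel₀
          (pow_ne_zero _ hl0), mul_one, pow_add, pow_one]
      rw [e1, mul_smul]
      exact T.smul_mem l hm)
    rw [mulVec_smul, ← smul_sub] at h2
    have h3 := hR _ h2
    rw [norm_smul, norm_inv, norm_pow, inv_mul_le_iff₀ (pow_pos hl0' j)] at h3
    exact h3
  have h2 : ‖ρ g *ᵥ y - y‖ ≤ 0 := by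
    have h3 := (tendsto_pow_atTop_nhds_zero_of_lt_one (norm_nonneg (l : E)) hl1).mul_const R
    rw [zero_mul] at h3
    exact ge_of_tendsto' h3 h1
  exact norm_le_zero_iff.1 h2

end ker

section coprime

theorem mem_of_odd {G : Type*} [Group G] {H : Subgroup G} {g : G} {k r : ℕ} (hr : Odd r)
    (h1 : g ^ 2 ^ k ∈ H) (h2 : g ^ r ∈ H) : g ∈ H := by
  have hco : Nat.Coprime (2 ^ k) r := Nat.Coprime.pow_left k (Nat.coprime_two_left.2 hr)
  obtain ⟨a, b, hab⟩ := Nat.isCoprime_iff_coprime.2 hco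
  have h3 : g = (g ^ 2 ^ k) ^ a * (g ^ r) ^ b := by
    rw [← zpow_natCast, ← zpow_natCast, ← _root_.zpow_mul, ← _root_.zpow_mul, ← _root_.zpow_add]
    rw [show ((2 ^ k : ℕ) : ℤ) * a + (r : ℤ) * b = 1 by linarith [hab], zpow_one]
  rw [h3]
  exact H.mul_mem (H.zpow_mem h1 a) (H.zpow_mem h2 b)

end coprime

variable {K : Type u} [Field K] [NumberField K] {D : ℕ} {s : K}
  {c : AlgebraicClosure K ≃+* AlgebraicClosure K} {κ : AbsGal K →* AbsGal K} {T : Finset ℕ}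
  {P : ℕ → Ideal (𝓞 (AlgebraicClosure K))} {N₀ : Subgroup (AbsGal K)}
  {iv ivF : ∀ w : Option T, (stb (HP.PP P w) → stb (HP.PP P w) → A0) → A0}
  {tr : (((AlgebraicClosure K ≃+* AlgebraicClosure K) → (AlgebraicClosure K ≃+* AlgebraicClosure K) →
      (AlgebraicClosure K ≃+* AlgebraicClosure K) → A0) ×
      (∀ i : Option (Option T), HQ c P i → HQ c P i → A0)) →+ A0}
  {E : Type w} [NormedField E] [NormedAlgebra ℚ_[2] E] [FiniteDimensional ℚ_[2] E]
  {n : ℕ} {ρ : AbsGal K →* Matrix (Fin n) (Fin n) E} {b : Matrix (Fin n) (Fin n) E}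
  {l : OE E} {t : E →ₗ[ℚ_[2]] ℚ_[2]} {L₀ : Submodule (OE E) (Fin n → E)}

/-- an element of inertia of the pro-odd part that acts trivially at the level 1 acts trivially -/
theorem one_of_lev (I : Inst.{u, w} s c κ D T P N₀ iv ivF tr) (h : Ari s c κ D T P N₀)
    (hρ : Gn.ConjDual 2 N₀ (inT K T) (Parity.cyclo E) κ ρ b) (hl : Lat b l t L₀)
    (hst : ∀ g, ∀ x ∈ L₀, ρ g *ᵥ x ∈ L₀) {p : T} {a : HQ c P (some (some p)) → ℤ_[2]}
    {σ τ : HQ c P (some (some p))} {q : ℕ}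
    (hT : QL.TameF (SQ c P (N₀.map (iK K)) (some (some p))) (fun d => cyQ (jQ c P (some (some p)) d))
      a σ τ q ((inr (P p)).subgroupOf (stb (P p))))
    {g : AbsGal K} {d : HQ c P (some (some p))} (hgd : iK K g = jQ c P (some (some p)) d) (hd : d ∈ hT.P)
    (h1 : ∀ m : MN L₀ l 1, actN l 1 (fun g => ρ g) hst g m = m) : ρ g = 1 := by
  refine one_of_ker hl.lne hl.llt hst hl.bdd hl.opn fun k => ?_
  have h2 := pow_two_ker hl.lne hl.lmax hst (mem_kerT_iff.2 h1) k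
  obtain ⟨R, hR⟩ := hl.bdd
  obtain ⟨r, hr, hr'⟩ := hl.opn
  have hR0 : 0 ≤ R := (norm_nonneg _).trans (hR 0 L₀.zero_mem)
  have hl0' : 0 < ‖(l : E)‖ := norm_pos_iff.2 hl.lne
  -- a member of the system contained in the kernel
  obtain ⟨W, hW, hW'⟩ := (h.rep hρ hst).sm (r / (R / ‖(l : E)‖ ^ (k + 1) + 1)) (by positivity)
  have hWk : ∀ w ∈ W, w ∈ kerT L₀ ((l : E) ^ (k + 1)) ρ hst := by
    intro w hw x hx
    refine hr' _ ((hW' w hw x).trans_lt ?_)
    have h3 := hR _ hx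
    rw [norm_smul, norm_pow] at h3
    have h4 : ‖x‖ ≤ R / ‖(l : E)‖ ^ (k + 1) := by
      rw [le_div_iff₀ (pow_pos hl0' _)]
      linarith
    have h5 : 0 < R / ‖(l : E)‖ ^ (k + 1) + 1 := by positivity
    rw [div_mul_eq_mul_div, div_lt_iff₀ h5]
    nlinarith
  obtain ⟨W₁, hW₁, h3⟩ := I.up hW
  obtain ⟨W₂, hW₂, h4⟩ := I.jsm (some (some p)) W₁ hW₁
  obtain ⟨m, hm, h5⟩ := KI.P_pow hT hW₂ hd
  refine mem_of_odd hm h2 (hWk _ ?_)
  obtain ⟨g', hg', h6⟩ := h3 _ (h4 _ h5)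
  have h7 : iK K g' = iK K (g ^ m) := by
    rw [h6, map_pow, map_pow, hgd]
  rw [← I.isTwo.inj h7]
  exact hg'

/-- THE COMPARISON. -/
theorem comm_iff (I : Inst.{u, w} s c κ D T P N₀ iv ivF tr) (h : Ari s c κ D T P N₀)
    (hρ : Gn.ConjDual 2 N₀ (inT K T) (Parity.cyclo E) κ ρ b) (hl : Lat b l t L₀)
    (hst : ∀ g, ∀ x ∈ L₀, ρ g *ᵥ x ∈ L₀) {C : MN L₀ l 1 → MN L₀ l 1}
    {F : Type*} [Field F] [Finite F] [CharP F 2] [Algebra (ZMod 2) F] [Algebra (OE E) F] {m : ℕ}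
    [KT.Sy F m] {Lc : MN L₀ l 1 ≃+ (Fin m → F)}
    {A : (AlgebraicClosure K ≃+* AlgebraicClosure K) →* Matrix (Fin m) (Fin m) F}
    (hc : Crd (iK K) c (OE E) (actN l 1 (fun g => ρ g) hst) (bN hl 1) C Lc A) {p : T}
    {a : HQ c P (some (some p)) → ℤ_[2]}
    {σ τ : HQ c P (some (some p))} {q : ℕ}
    (hT : QL.TameF (SQ c P (N₀.map (iK K)) (some (some p))) (fun d => cyQ (jQ c P (some (some p)) d))
      a σ τ q ((inr (P p)).subgroupOf (stb (P p)))) (hp : ¬ (p : ℕ) ∣ D) :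
    (∀ g : HQ c P (some (some p)), g ∈ (inr (P p)).subgroupOf (stb (P p)) →
      ∀ k : HQ c P (some (some p)), k ∈ (inr (P p)).subgroupOf (stb (P p)) →
      A (jQ c P (some (some p)) g) * A (jQ c P (some (some p)) k) =
        A (jQ c P (some (some p)) k) * A (jQ c P (some (some p)) g)) ↔
      Parity.CommOn ((P p).inertia (AbsGal K)) ρ := by
  constructor
  · intro hcom g hg k hk
    obtain ⟨g', hg', hgg⟩ : ∃ i : HQ c P (some (some p)), i ∈ (inr (P p)).subgroupOf (stb (P p)) ∧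
      iK K g = jQ c P (some (some p)) i := (inr_iff (c := c) p).2 hg
    obtain ⟨k', hk', hkk⟩ : ∃ i : HQ c P (some (some p)), i ∈ (inr (P p)).subgroupOf (stb (P p)) ∧
      iK K k = jQ c P (some (some p)) i := (inr_iff (c := c) p).2 hk
    have h1 : A (iK K (g * k * (k * g)⁻¹)) = 1 := by
      have h2 : A (iK K (g * k)) = A (iK K (k * g)) := by
        rw [map_mul, map_mul, map_mul, map_mul, hgg, hkk]
        exact hcom g' hg' k' hk'
      rw [map_mul, map_mul, h2, ← map_mul, ← map_mul, mul_inv_cancel, map_one, map_one]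
    have h3 : ∀ m : MN L₀ l 1, actN l 1 (fun g => ρ g) hst (g * k * (k * g)⁻¹) m = m := by
      intro m
      apply Lc.injective
      rw [← hc.ae, h1, one_mulVec]
    have h4 : (g' * k') * (k' * g')⁻¹ ∈ hT.P := by
      have e1 : (g' * k') * (k' * g')⁻¹ ∈ (inr (P p)).subgroupOf (stb (P p)) :=
        mul_mem (mul_mem hg' hk') (inv_mem (mul_mem hk' hg'))
      refine ⟨hT.Iχ _ e1, ?_⟩
      have e2 : a (g' * k') = a ((g' * k') * (k' * g')⁻¹) + a (k' * g') := by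
        conv_lhs => rw [← inv_mul_cancel_right (g' * k') (k' * g')]
        rw [hT.coc, hT.Iχ _ e1, one_mul]
      rw [hT.coc, hT.coc k', hT.Iχ _ hg', hT.Iχ _ hk', one_mul, one_mul] at e2
      linear_combination -e2
    have h5 : iK K (g * k * (k * g)⁻¹) = jQ c P (some (some p)) ((g' * k') * (k' * g')⁻¹) := by
      rw [map_mul, map_inv, map_mul, map_mul, hgg, hkk]
      rfl
    have h6 := one_of_lev I h hρ hl hst hT h5 h4 h3
    have h7 : ρ (g * k) = ρ (g * k * (k * g)⁻¹) * ρ (k * g) := by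
      rw [← map_mul, inv_mul_cancel_right]
    rw [h6, one_mul, map_mul, map_mul] at h7
    exact h7
  · intro hcom g' hg' k' hk'
    obtain ⟨g, hg⟩ := I.le_inr hp (g := jQ c P (some (some p)) g') hg'
    obtain ⟨k, hk⟩ := I.le_inr hp (g := jQ c P (some (some p)) k') hk'
    have h1 : g ∈ (P p).inertia (AbsGal K) := (inr_iff (c := c) p).1 ⟨g', hg', hg⟩
    have h2 : k ∈ (P p).inertia (AbsGal K) := (inr_iff (c := c) p).1 ⟨k', hk', hk⟩
    have h3 : ρ (g * k) = ρ (k * g) := by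
      rw [map_mul, map_mul]
      exact hcom g h1 k h2
    have h4 : A (iK K (g * k)) = A (iK K (k * g)) := by
      apply Matrix.toLin'.injective
      refine LinearMap.ext fun x => ?_
      rw [Matrix.toLin'_apply, Matrix.toLin'_apply]
      obtain ⟨m, rfl⟩ := Lc.surjective x
      rw [hc.ae, hc.ae]
      congr 1
      apply Subtype.ext
      rw [GP.coe_actN, GP.coe_actN]
      show actQ L₀ (ρ (g * k)) _ = actQ L₀ (ρ (k * g)) _
      rw [h3]
    rw [map_mul, map_mul, map_mul, map_mul, hg, hk] at h4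
    exact h4

end Pool.Agent.Work.MP_787500_nt.QG
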