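import Mathlib
import Pool.Agent.Work.MP_787500_nt.QG.CondC
import Pool.Agent.Work.MP_787500_nt.KI.LocInM

/-!
THE CONTRIBUTION OF AN INERT PRIME NUMBER where inertia acts by commuting matrices or the dimension is 2.
-/

set_option autoImplicit false
set_option linter.unusedSectionVars false

namespace Pool.Agent.Work.MP_787500_nt.QG

open Matrix NumberField
open Pool.Agent.Work.MP_787500_nt.GP (A0 OE bil Lat inT stabD EvPow actN lamN MN bN mq Wq actQ IsAct)
open Pool.Agent.Work.MP_787500_nt.KR (FSys LocRep fullC fullK fullQ big SDualF sdualF_MN Smooth)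
open Pool.Agent.Work.MP_787500_nt.KT hiding Str Rel Sel KH Ai IsP cc ff TT
open Pool.Agent.Work.MP_787500_nt.PA (toE cyc)
open Pool.Agent.Work.MP_787500_nt.HP (inr stb cyQ)
open Pool.Agent.Work.MP_787500_nt.KS (iK)
open Pool.Agent.Work.MP_787500_nt.GA (jQ HQ SQ Inr)
open Pool.Agent.Work.MP_787500_nt.QU (Inst)
open Pool.Agent.Work.MP_787500_nt.QW (Ari famL)
open Pool.Agent.Work.MP_787500_nt.KI (Crd LocF)
open Pool.Agent.Work.MP_787500_nt.QL (TameF)

universe u w

variable {K : Type u} [Field K] [NumberField K] {D : ℕ} {s : K}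
  {c : AlgebraicClosure K ≃+* AlgebraicClosure K} {κ : AbsGal K →* AbsGal K} {T : Finset ℕ}
  {P : ℕ → Ideal (𝓞 (AlgebraicClosure K))} {N₀ : Subgroup (AbsGal K)}
  {iv ivF : ∀ w : Option T, (stb (HP.PP P w) → stb (HP.PP P w) → A0) → A0}
  {tr : (((AlgebraicClosure K ≃+* AlgebraicClosure K) → (AlgebraicClosure K ≃+* AlgebraicClosure K) →
      (AlgebraicClosure K ≃+* AlgebraicClosure K) → A0) ×
      (∀ i : Option (Option T), HQ c P i → HQ c P i → A0)) →+ A0}
  {E : Type w} [NormedField E] [NormedAlgebra ℚ_[2] E] [FiniteDimensional ℚ_[2] E]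
  {n : ℕ} {ρ : AbsGal K →* Matrix (Fin n) (Fin n) E} {b : Matrix (Fin n) (Fin n) E}
  {l : OE E} {t : E →ₗ[ℚ_[2]] ℚ_[2]} {L₀ : Submodule (OE E) (Fin n → E)}
  {L : Submodule E (stabD (K := K) (P 2) → Fin n → E)}

open scoped Classical in
theorem locF_inert [IsLocalRing (OE E)] [Finite (IsLocalRing.ResidueField (OE E))]
    [CharP (IsLocalRing.ResidueField (OE E)) 2] [Algebra (ZMod 2) (IsLocalRing.ResidueField (OE E))]
    (I : Inst.{u, w} s c κ D T P N₀ iv ivF tr) (h : Ari s c κ D T P N₀)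
    (hρ : Gn.ConjDual 2 N₀ (inT K T) (Parity.cyclo E) κ ρ b) (hl : Lat b l t L₀)
    (hst : ∀ g, ∀ x ∈ L₀, ρ g *ᵥ x ∈ L₀) {C : MN L₀ l 1 → MN L₀ l 1}
    (hL : L ≤ Parity.cocycles (fun σ : stabD (K := K) (P 2) => ρ σ))
    (hL0 : Parity.coboundaries (fun σ : stabD (K := K) (P 2) => ρ σ) ≤ L) (hn : Even n) {p : T}
    (hp : Inr D p) (hcn : Parity.CommOn ((P p).inertia (AbsGal K)) ρ ∨ n = 2) :
    LocF c κ P N₀ ivF hl hst C (some (some p)) (famL c κ T P N₀ ρ b h.h2 L (some (some p)))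
      (Parity.condExp ((P p).inertia (AbsGal K)) ρ) := by
  refine KI.locM_inr I h hρ hl hst hL hL0 hp fun m iS Lc A hc a σ τ τ' hT hτ' hodd => ?_
  have hfin : Finite (MN L₀ l 1) := GP.MN_finite hl 1
  have hs : SDualF (big (fullK (K := K) T) N₀) cyc κ ∅ (OE E) (actN l 1 (fun g => ρ g) hst)
      (bN hl 1) := sdualF_MN hl (h.rep hρ hst) (fun p hp => absurd hp (Set.notMem_empty p)) 1
  have hmn : m = n := by
    have h1 := KR.card_MN hl 1
    rw [KI.card_of_iso (F := IsLocalRing.ResidueField (OE E)) (Nat.card_congr Lc.toEquiv),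
      one_mul] at h1
    exact Nat.pow_right_injective
      (Finite.one_lt_card : 1 < Nat.card (IsLocalRing.ResidueField (OE E))) h1
  subst hmn
  have hcomm := comm_iff I h hρ hl hst hc (p := p) hT hp.2.2.1
  have hsm : Smooth (big (fullC (stb (P p))) ((N₀.map (iK K)).subgroupOf (stb (P p))))
      (KT.act (A.comp (stb (P p)).subtype : stb (P p) → Matrix (Fin m) (Fin m)
        (IsLocalRing.ResidueField (OE E)))) := by
    obtain ⟨W, hW, hW'⟩ := hs.sm
    obtain ⟨W₁, hW₁, h3⟩ := I.up hW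
    obtain ⟨W₂, hW₂, h4⟩ := I.jsm (some (some p)) W₁ hW₁
    refine ⟨W₂, hW₂, fun d hd u => ?_⟩
    obtain ⟨g, hg, h6⟩ := h3 _ (h4 _ hd)
    obtain ⟨y, rfl⟩ := Lc.surjective u
    show A (d : AlgebraicClosure K ≃+* AlgebraicClosure K) *ᵥ Lc y = Lc y
    have h7 : (d : AlgebraicClosure K ≃+* AlgebraicClosure K) = iK K g := h6.symm
    rw [h7, hc.ae, hW' g hg]
  have h1 := KI.fix_par (A := A.comp (stb (P p)).subtype) hT hsm (fun g => hc.sp _)
    (hcn.imp (fun h2 => hcomm.2 h2) id) hτ' hodd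
  have h2 : Module.finrank E (EV.VI (iK K) (stb (P p)).subtype
      ((inr (P p)).subgroupOf (stb (P p))) (fun g => ρ g)) =
      Module.finrank E (Parity.fixedBy (fun σ : (P p).inertia (AbsGal K) => ρ σ)) := by
    have h3 := VI_eq (c := c) (P := P) p (fun g => ρ g)
    exact congrArg (fun W : Submodule E (Fin m → E) => Module.finrank E W) h3
  have h4 : Module.finrank E (Parity.fixedBy (fun σ : (P p).inertia (AbsGal K) => ρ σ)) ≤ m := by
    have h5 := GP.finrank_cob (fun σ : (P p).inertia (AbsGal K) => ρ σ)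
    omega
  have h5 : (if ∀ g ∈ (inr (P p)).subgroupOf (stb (P p)), ∀ k ∈ (inr (P p)).subgroupOf (stb (P p)),
      A.comp (stb (P p)).subtype g * A.comp (stb (P p)).subtype k =
        A.comp (stb (P p)).subtype k * A.comp (stb (P p)).subtype g then 0 else 1 : ℕ) =
      if Parity.CommOn ((P p).inertia (AbsGal K)) ρ then 0 else 1 :=
    if_congr hcomm rfl rfl
  rw [h5] at h1
  rw [h2]
  unfold Parity.condExp
  have h6 : Module.finrank (IsLocalRing.ResidueField (OE E))
      (fixv (A.comp (stb (P p)).subtype τ')) =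
    Module.finrank (IsLocalRing.ResidueField (OE E))
      (fixv (A (τ' : AlgebraicClosure K ≃+* AlgebraicClosure K))) := rfl
  rw [h6] at h1
  obtain ⟨a₁, ha₁⟩ := h1
  obtain ⟨a₂, ha₂⟩ := hn
  generalize (if Parity.CommOn ((P p).inertia (AbsGal K)) ρ then 0 else 1 : ℕ) = x at ha₁ ⊢
  refine ⟨a₁ + a₂, ?_⟩
  omega

end Pool.Agent.Work.MP_787500_nt.QG
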