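import Mathlib
import Pool.Agent.Work.MP_787500_nt.QG.Ext
import Pool.Agent.Work.MP_787500_nt.QG.InrC
import Pool.Agent.Work.MP_787500_nt.SH.Gen
import Pool.Agent.Work.MP_787500_nt.KI.LevR
import Pool.Agent.Work.MP_787500_nt.QW.Par

/-!
The parity theorem with ramification at inert primes for representations that have a matrix `C` as in `SH.HasL`.
-/

set_option autoImplicit false
set_option linter.unusedSectionVars false

namespace Pool.Agent.Work.MP_787500_nt.QG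

open Matrix NumberField
open Pool.Agent.Work.MP_787500_nt.PA (cyc toE)
open Pool.Agent.Work.MP_787500_nt.GP
open Pool.Agent.Work.MP_787500_nt.LX
open Pool.Agent.Work.MP_787500_nt.HP (IsQ Spl IsP inr cyQ)
open Pool.Agent.Work.MP_787500_nt.KS (iK)
open Pool.Agent.Work.MP_787500_nt.QF (InD exists_n0 max_MN)
open Pool.Agent.Work.MP_787500_nt.KI (LocF)
open Pool.Agent.Work.MP_787500_nt.QW (Ari famL)

universe u v

variable {K : Type u} [Field K] [NumberField K] {D : ℕ} {s : K}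
  {c : AlgebraicClosure K ≃+* AlgebraicClosure K} {κ : AbsGal K →* AbsGal K}

/-- the primes: given ones at 2 and at the elements of `T` -/
theorem exists_primes {T T' : Finset ℕ} {P₀ : Ideal (𝓞 (AlgebraicClosure K))} (hP₀ : P₀.IsPrime)
    (hP2 : (2 : 𝓞 (AlgebraicClosure K)) ∈ P₀) (hp : ∀ l ∈ T', l.Prime) (h2 : ∀ l ∈ T', l ≠ 2)
    {Q : ℕ → Ideal (𝓞 (AlgebraicClosure K))}
    (hQ : ∀ l ∈ T, (Q l).IsPrime ∧ (l : 𝓞 (AlgebraicClosure K)) ∈ Q l) (hTT : T ⊆ T') :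
    ∃ P : ℕ → Ideal (𝓞 (AlgebraicClosure K)), IsP T' P ∧ P 2 = P₀ ∧ ∀ l ∈ T, P l = Q l := by
  classical
  have hR : ∀ p : ℕ, ∃ Q : Ideal (𝓞 (AlgebraicClosure K)), p.Prime →
      Q.IsPrime ∧ (p : 𝓞 (AlgebraicClosure K)) ∈ Q := by
    intro p
    by_cases hp : p.Prime
    · obtain ⟨Q, hQ⟩ := HP.prime_over_nat (Ω := AlgebraicClosure K) hp
      exact ⟨Q, fun _ => hQ⟩
    · exact ⟨⊥, fun h => absurd h hp⟩
  choose R hR using hR
  have e1 : ∀ l ∈ T, l ≠ 2 := fun l hl => h2 l (hTT hl)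
  refine ⟨fun l => if l = 2 then P₀ else if l ∈ T then Q l else R l, ⟨hp, h2, fun l hl => ?_,
    fun l hl => ?_⟩, if_pos rfl, fun l hl => ?_⟩
  · by_cases h : l = 2
    · subst h
      show (if 2 = 2 then P₀ else _ : Ideal (𝓞 (AlgebraicClosure K))).IsPrime
      rw [if_pos rfl]
      exact hP₀
    · show (if l = 2 then P₀ else if l ∈ T then Q l else R l).IsPrime
      rw [if_neg h]
      by_cases h3 : l ∈ T
      · rw [if_pos h3]
        exact (hQ l h3).1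
      · rw [if_neg h3]
        exact (hR l (hp l (hl.resolve_right h))).1
  · by_cases h : l = 2
    · subst h
      show _ ∈ (if 2 = 2 then P₀ else _ : Ideal (𝓞 (AlgebraicClosure K)))
      rw [if_pos rfl]
      exact_mod_cast hP2
    · show _ ∈ (if l = 2 then P₀ else if l ∈ T then Q l else R l)
      rw [if_neg h]
      by_cases h3 : l ∈ T
      · rw [if_pos h3]
        exact (hQ l h3).2
      · rw [if_neg h3]
        exact (hR l (hp l (hl.resolve_right h))).2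
  · show (if l = 2 then P₀ else if l ∈ T then Q l else R l) = Q l
    rw [if_neg (e1 l hl), if_pos hl]

/-- the form `b (x, ρ θ y)` is alternating -/
theorem alt_theta {E : Type v} [NormedField E] [NormedAlgebra ℚ_[2] E] [FiniteDimensional ℚ_[2] E]
    {n : ℕ}
    {ρ : AbsGal K →* Matrix (Fin n) (Fin n) E} {b : Matrix (Fin n) (Fin n) E} (X : QS.Two (iK K) c κ)
    (hcy : cyQ c = -1) (hs : bᵀ = b) (hd : ∀ g, (ρ g)ᵀ * b * ρ (κ g) = toE E (cyc g) • b)
    {Q : Ideal (𝓞 (AlgebraicClosure K))} (hQ : Q.IsPrime) (h2 : (2 : 𝓞 (AlgebraicClosure K)) ∉ Q)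
    (hun : ∀ g : AbsGal K, iK K g ∈ inr Q → ρ g = 1) {θ : AbsGal K} (hθ : iK K θ * c ∈ inr Q)
    (x : Fin n → E) : bil b x (ρ θ *ᵥ x) = 0 := by
  have h1 : cyc θ = -1 := by
    have h3 : cyQ (iK K θ * c) = 1 := HP.cyQ_inr hQ h2 hθ
    have h4 : cyQ (iK K θ * c) = cyQ (iK K θ) * cyQ c := by
      unfold HP.cyQ
      rw [map_mul, Units.val_mul]
    rw [h4, hcy, HP.cyQ_emb] at h3
    linear_combination -h3
  have h3 : ρ θ * ρ (κ θ) = 1 := by
    rw [← map_mul]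
    refine hun _ ?_
    have h5 : iK K (θ * κ θ) = (iK K θ * c) * (iK K θ * c) := by
      rw [map_mul, X.kap]
      group
    rw [h5]
    exact mul_mem hθ hθ
  have hdd : ∀ (g : AbsGal K) (x y : Fin n → E),
      bil b (ρ g *ᵥ x) (ρ (κ g) *ᵥ y) = toE E (cyc g) * bil b x y := by
    intro g x y
    unfold bil
    rw [← vecMul_transpose, ← dotProduct_mulVec, mulVec_mulVec, mulVec_mulVec, hd, smul_mulVec,
      dotProduct_smul, smul_eq_mul]
  exact GP.alt_V hs (κ := κ) hdd h1 h3 x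

open scoped Classical in
theorem main_gen3 (hK : IsQ K D s) (hc : PA.IsConj s c)
    (hκ : ∀ (σ : AbsGal K) (x : AlgebraicClosure K), κ σ x = c (σ (c x)))
    {P₀ : Ideal (𝓞 (AlgebraicClosure K))} (hP₀ : P₀.IsPrime)
    (hP2 : (2 : 𝓞 (AlgebraicClosure K)) ∈ P₀)
    {T : Finset ℕ} (hT : ∀ l ∈ T, l.Prime ∧ l ≠ 2 ∧ ¬ l ∣ D)
    {Q : ℕ → Ideal (𝓞 (AlgebraicClosure K))}
    (hQ : ∀ l ∈ T, (Q l).IsPrime ∧ (l : 𝓞 (AlgebraicClosure K)) ∈ Q l)
    {E : Type v} [NormedField E] [NormedAlgebra ℚ_[2] E] [FiniteDimensional ℚ_[2] E] {n : ℕ}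
    {ρ : AbsGal K →* Matrix (Fin n) (Fin n) E} {b : Matrix (Fin n) (Fin n) E} (hb : b.det ≠ 0)
    (hρ : Parity.IsDualRep (inT K T) (Parity.cyclo E) κ ρ b) (hC : SH.HasL (InD c D) κ ρ b)
    (hI : ∀ l ∈ T, GA.Inr D l → Parity.CommOn ((Q l).inertia (AbsGal K)) ρ ∨ n = 2) :
    Parity.ParityBKA (Parity.inertiaOffTwo K) (Parity.cyclo E) κ ρ b (stabD P₀)
      (∑ l ∈ T.filter (GA.Inr D), Parity.condExp ((Q l).inertia (AbsGal K)) ρ) := by
  have hκκ : ∀ g, κ (κ g) = g := GA.kap_kap hc hκ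
  have hodd : ∀ g : AbsGal K, (2 : ℤ_[2]) ∣ cyc g - 1 := PA.isChar_cyc.odd
  obtain ⟨N₀, hNn, hNF, hNo, hκN, hNI, hpro⟩ := exists_n0 (KR.isFull_K T) (χ := cyc)
    PA.isChar_cyc.mul PA.isChar_cyc.one hodd hκκ hb hρ
  obtain ⟨T₁, hT₁, hex⟩ := QU.exists_inst.{u, v} hK hc hκ hNF hκN
  have hTT : T ⊆ T ∪ T₁ ∪ D.primeFactors :=
    Finset.subset_union_left.trans Finset.subset_union_left
  have hTD : D.primeFactors ⊆ T ∪ T₁ ∪ D.primeFactors := Finset.subset_union_right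
  have hT1 : T₁ ⊆ T ∪ T₁ ∪ D.primeFactors :=
    Finset.subset_union_right.trans Finset.subset_union_left
  obtain ⟨T', hT'⟩ : ∃ T', T' = T ∪ T₁ ∪ D.primeFactors := ⟨_, rfl⟩
  rw [← hT'] at hTT hTD hT1
  have hcase : ∀ l ∈ T', l ∈ T ∨ Spl D l ∨ (l.Prime ∧ l ∣ D) := by
    intro l hl
    rw [hT'] at hl
    rcases Finset.mem_union.1 hl with h | h
    · rcases Finset.mem_union.1 h with h | h
      · exact Or.inl h
      · exact Or.inr (Or.inl (hT₁ l h))
    · exact Or.inr (Or.inr ⟨Nat.prime_of_mem_primeFactors h, Nat.dvd_of_mem_primeFactors h⟩)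
  have hprime : ∀ l ∈ T', l.Prime := fun l hl => by
    rcases hcase l hl with h | h | h
    · exact (hT l h).1
    · exact h.1
    · exact h.1
  have hodd' : ∀ l ∈ T', l ≠ 2 := fun l hl => by
    rcases hcase l hl with h | h | h
    · exact (hT l h).2.1
    · exact h.2.1
    · rintro rfl
      have h4 := hK.mod
      have h5 := h.2
      omega
  obtain ⟨P, hP, h2, hPQ⟩ := exists_primes hP₀ hP2 hprime hodd' hQ hTT
  obtain ⟨iv, ivF, -, tr, I⟩ := hex T' hTT hT1 hTD P hP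
  have hI' : ∀ σ ∈ inT K T', ρ σ = 1 := fun σ hσ => hρ.unram σ (HP.inT_mono hTT hσ)
  have hρ₀ : Gn.ConjDual 2 N₀ (inT K T') (fun g => toE E (cyc g)) κ ρ b :=
    ⟨hρ.cont, hpro, hI', hρ.symm, hρ.dual⟩
  obtain ⟨l, hl0, hl1, hlm⟩ := exists_unif E
  obtain ⟨E', i1, i2, i3, ι, m', hx⟩ := exists_sqrtExt hl0 hl1 hlm
  refine parityBKA_ext (χ := cyc) hx hl0 ?_
  have hloc : IsLocalRing (OE E') := isLocal E'
  have hrf : Finite (IsLocalRing.ResidueField (OE E')) := res_finite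
  have hρ' : Gn.ConjDual 2 N₀ (inT K T') (Parity.cyclo E') κ (mapRep ι ρ) (b.map ι) :=
    conjDual_ext hx hρ₀
  obtain ⟨L₀, C₀, hst, hdual, hbdd, hopn, hMC, hMth⟩ := hC E' ι m' l hl0 hl1 hlm hx
  obtain ⟨t, ht1, ht2, ht3⟩ := exists_func E'
  let l' : OE E' := ⟨m', (hx.lt hl1).le⟩
  have hlat : Lat (b.map ι) l' t L₀ :=
    ⟨hx.ne hl0, hx.lt hl1, hx.max hl0 hl1 hlm, ht1, ht2, ht3, hρ'.symm, hdual, hbdd, hopn⟩
  have hfM : Finite (MN L₀ l' 1) := MN_finite hlat 1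
  obtain ⟨C₁, g1, g2, g3, g4⟩ := SH.MatL.exists_C1 hlat hst hMC
  have hInv : QP.InvC κ (OE E') (actN l' 1 (fun g => mapRep ι ρ g) hst) (bN hlat 1) C₁ :=
    ⟨map_add C₁, map_smul C₁, g1, g2, g3⟩
  have hF2 : (2 : IsLocalRing.ResidueField (OE E')) = 0 := by
    have h3 := (IsLocalRing.residue_eq_zero_iff (2 : OE E')).2 two_mem
    rwa [map_ofNat] at h3
  have hchar : CharP (IsLocalRing.ResidueField (OE E')) 2 :=
    (CharP.charP_iff_prime_eq_zero Nat.prime_two).2 (by exact_mod_cast hF2)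
  let _ : Algebra (ZMod 2) (IsLocalRing.ResidueField (OE E')) := ZMod.algebra _ 2
  rw [← h2]
  intro L hL
  have h := QW.ari_inst I
  -- the prime divisors of `D`
  have hDT : ∀ p ∈ D.primeFactors, p ∉ T := fun p hp hpT => (hT p hpT).2.2
    (Nat.dvd_of_mem_primeFactors hp)
  have hunD : ∀ p ∈ D.primeFactors, ∀ g : AbsGal K, iK K g ∈ inr (P p) → mapRep ι ρ g = 1 := by
    intro p hp g hg
    have h3 := HP.inertia_inT hP hTT (hTD hp) (hDT p hp) (QW.emb_refl_inr.1 hg)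
    rw [mapRep_apply, hρ.unram g h3]
    exact Matrix.map_one _ (map_zero _) (map_one _)
  have h2n : ∀ p ∈ D.primeFactors, (2 : 𝓞 (AlgebraicClosure K)) ∉ P p := fun p hp =>
    I.two_not ⟨p, hTD hp⟩
  have hal : ∀ p ∈ D.primeFactors, ∀ θ : AbsGal K, iK K θ * c ∈ inr (P p) → ∀ x : Fin n → E',
      bil (b.map ι) x (mapRep ι ρ θ *ᵥ x) = 0 := fun p hp θ hθ =>
    alt_theta I.isTwo I.chic hρ'.symm hρ'.dual (hP.isPrime p (Or.inl (hTD hp))) (h2n p hp)
      (hunD p hp) hθ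
  have hth : ∀ p ∈ D.primeFactors, ∀ θ : AbsGal K, iK K θ * c ∈ inr (P p) →
      ∀ m, actN l' 1 (fun g => mapRep ι ρ g) hst θ (C₁ m) = m := fun p hp θ hθ =>
    g4 θ (hMth θ ⟨p, hp, P p, hP.isPrime p (Or.inl (hTD hp)), hP.mem p (Or.inl (hTD hp)), hθ⟩
      (hal p hp θ hθ))
  -- the dimension is even
  have hn : Even n := by
    obtain ⟨p, hp⟩ : D.primeFactors.Nonempty := by
      rw [Nat.nonempty_primeFactors]
      have := hK.mod
      omega
    obtain ⟨θ, hθ⟩ := I.theta hp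
    have hθd : (mapRep ι ρ θ).det ≠ 0 := by
      intro h0
      have h3 : mapRep ι ρ θ * mapRep ι ρ θ⁻¹ = 1 := by rw [← map_mul, mul_inv_cancel, map_one]
      have h4 := congrArg Matrix.det h3
      rw [Matrix.det_mul, h0, zero_mul, Matrix.det_one] at h4
      exact zero_ne_one h4
    have hc0 : CharZero E' := charZero_of_injective_algebraMap (algebraMap ℚ_[2] E').injective
    exact GP.even_n (det_ext hx hb) hθd (hal p hp θ hθ)
  -- the places of `T'`
  have hloc : ∀ p : T', LocF c κ P N₀ ivF hlat hst C₁ (some (some p))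
      (famL c κ T' P N₀ (mapRep ι ρ) (b.map ι) h.h2 L (some (some p)))
      (if GA.Inr D p then Parity.condExp ((P p).inertia (AbsGal K)) ρ else 0) := by
    intro p
    rcases I.kinds p with hp | hp | hp
    · -- a prime number that splits
      rw [if_neg fun h3 => h3.2.2.2 hp.2.2.2]
      exact KI.locM_odd I h hρ' hlat hst hInv hL.2 hL.1 hp
    · -- a prime divisor of `D`
      rw [if_neg fun h3 => h3.2.2.1 hp]
      have hpD : (p : ℕ) ∈ D.primeFactors :=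
        Nat.mem_primeFactors.2 ⟨I.prime p, hp, I.hK.sqf.ne_zero⟩
      obtain ⟨θ, hθ⟩ := I.theta hpD
      exact KI.locM_pD I h hρ' hlat hst hInv hL.2 hL.1 hp hθ (hth p hpD θ hθ) (hunD p hpD)
    · -- an inert prime number
      rw [if_pos hp]
      have hpT : (p : ℕ) ∈ T := by
        rcases hcase p p.2 with h3 | h3 | h3
        · exact h3
        · exact absurd h3.2.2.2 hp.2.2.2
        · exact absurd h3.2 hp.2.2.1
      have hcn : Parity.CommOn ((P p).inertia (AbsGal K)) (mapRep ι ρ) ∨ n = 2 := by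
        rw [hPQ p hpT, commOn_ext ι]
        exact hI p hpT hp
      rw [← condExp_ext (ρ := ρ) hx hl0]
      exact locF_inert I h hρ' hlat hst hL.2 hL.1 hn hp hcn
  have hloc2 : ∀ r, Nat.card (MN L₀ l' 1) = Nat.card (IsLocalRing.ResidueField (OE E')) ^ (2 * r) →
      LocF c κ P N₀ ivF hlat hst C₁ (some none)
        (famL c κ T' P N₀ (mapRep ι ρ) (b.map ι) h.h2 L (some none))
        (Module.finrank E' L + r) := fun r hr =>
    KI.locM_dy I h hρ' hlat hst hL.2 hL.1 hr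
  have hP1 := KI.hP_fam0 I h hρ' hlat hst hInv hL.2 hL.1 I.glob.glob.char.mul hloc2 hloc
  obtain ⟨f1, f2, f3, f4⟩ := QW.parity_inst I hρ' hlat hst hL.2 hL.1 hP1
  refine ⟨f1, f2, f3, ?_⟩
  have k1 := dimModulo_add hL.1 f1
  have k2 := finrank_cob (fun σ : stabD (K := K) (P 2) => mapRep ι ρ σ)
  have k3 : ∑ p : T', (if GA.Inr D p then Parity.condExp ((P p).inertia (AbsGal K)) ρ else 0) =
      ∑ l ∈ T.filter (GA.Inr D), Parity.condExp ((Q l).inertia (AbsGal K)) ρ := by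
    rw [Finset.sum_coe_sort T' (fun p : ℕ => if GA.Inr D p then
      Parity.condExp ((P p).inertia (AbsGal K)) ρ else 0), ← Finset.sum_filter]
    have k4 : T'.filter (GA.Inr D) = T.filter (GA.Inr D) := by
      ext p
      rw [Finset.mem_filter, Finset.mem_filter]
      refine ⟨fun hp => ⟨?_, hp.2⟩, fun hp => ⟨hTT hp.1, hp.2⟩⟩
      rcases hcase p hp.1 with h3 | h3 | h3
      · exact h3
      · exact absurd h3.2.2.2 hp.2.2.2.2
      · exact absurd h3.2 hp.2.2.2.1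
    rw [k4]
    refine Finset.sum_congr rfl fun p hp => ?_
    rw [hPQ p (Finset.mem_filter.1 hp).1]
  rw [k3] at f4
  change Parity.dimModulo (Parity.selmerBK (Parity.inertiaOffTwo K) (Parity.cyclo E') κ
      (mapRep ι ρ) (b.map ι) (stabD (P 2)) L) (Parity.coboundaries (mapRep ι ρ)) +
    Module.finrank E' (Parity.fixedBy (fun σ : AbsGal K => mapRep ι ρ σ)) ≡ _ [MOD 2]
  unfold Nat.ModEq
  obtain ⟨a₁, ha₁⟩ := hn
  obtain ⟨a₂, ha₂⟩ := f4
  omega

end Pool.Agent.Work.MP_787500_nt.QG
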