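import Mathlib
import Pool.Agent.Work.MP_787500_nt.QG.Gen3
import Pool.Agent.Work.MP_787500_nt.ER.Fam
import Pool.Agent.Work.MP_787500_nt.ER.ExtQ

/-!
The parity theorem with ramification at arbitrary odd primes for representations that have a matrix `C` as in `SH.HasL`.
-/

set_option autoImplicit false
set_option linter.unusedSectionVars false

namespace Pool.Agent.Work.MP_787500_nt.QG

open Matrix NumberField
open Pool.Agent.Work.MP_787500_nt.PA (cyc toE)
open Pool.Agent.Work.MP_787500_nt.GP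
open Pool.Agent.Work.MP_787500_nt.LX
open Pool.Agent.Work.MP_787500_nt.HP (IsQ Spl IsP inr cyQ)
open Pool.Agent.Work.MP_787500_nt.KS (iK)
open Pool.Agent.Work.MP_787500_nt.QF (InD exists_n0 max_MN)
open Pool.Agent.Work.MP_787500_nt.KI (LocF)
open Pool.Agent.Work.MP_787500_nt.QW (Ari famL)

universe u v

variable {K : Type u} [Field K] [NumberField K] {D : ℕ} {s : K}
  {c : AlgebraicClosure K ≃+* AlgebraicClosure K} {κ : AbsGal K →* AbsGal K}

/-- an unramified representation -/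
theorem quotDim_unram {E : Type v} [NormedField E] {n : ℕ} {I D₀ : Subgroup (AbsGal K)}
    {ρ : AbsGal K →* Matrix (Fin n) (Fin n) E} (h : ∀ σ ∈ I, ρ σ = 1) :
    Parity.quotDim D₀ I ρ = 0 := by
  have h2 : (Parity.fixedBy fun σ : I => ρ σ) = ⊤ := by
    rw [eq_top_iff]
    intro v _ σ
    show ρ σ *ᵥ v = v
    rw [h σ σ.2, one_mulVec]
  have h3 : Parity.fixedModulo (fun σ : D₀ => ρ σ) (Parity.fixedBy fun σ : I => ρ σ) = ⊤ := by
    rw [eq_top_iff]
    intro v _ σ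
    rw [h2]
    exact Submodule.mem_top
  unfold Parity.quotDim
  rw [h3, h2, Nat.sub_self]

open scoped Classical in
theorem main_gen4 (hK : IsQ K D s) (hc : PA.IsConj s c)
    (hκ : ∀ (σ : AbsGal K) (x : AlgebraicClosure K), κ σ x = c (σ (c x)))
    {P₀ : Ideal (𝓞 (AlgebraicClosure K))} (hP₀ : P₀.IsPrime)
    (hP2 : (2 : 𝓞 (AlgebraicClosure K)) ∈ P₀)
    {T : Finset ℕ} (hT : ∀ l ∈ T, l.Prime ∧ l ≠ 2)
    {Q : ℕ → Ideal (𝓞 (AlgebraicClosure K))}
    (hQ : ∀ l ∈ T, (Q l).IsPrime ∧ (l : 𝓞 (AlgebraicClosure K)) ∈ Q l)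
    {E : Type v} [NormedField E] [NormedAlgebra ℚ_[2] E] [FiniteDimensional ℚ_[2] E] {n : ℕ}
    {ρ : AbsGal K →* Matrix (Fin n) (Fin n) E} {b : Matrix (Fin n) (Fin n) E} (hb : b.det ≠ 0)
    (hρ : Parity.IsDualRep (inT K T) (Parity.cyclo E) κ ρ b) (hC : SH.HasL (fun _ => False) κ ρ b)
    (hI : ∀ l ∈ T, GA.Inr D l → Parity.CommOn ((Q l).inertia (AbsGal K)) ρ ∨ n = 2)
    (hR : ∀ l ∈ T, l ∣ D → Parity.SemistableOn ((Q l).inertia (AbsGal K)) ρ) :
    Parity.ParityBKA (Parity.inertiaOffTwo K) (Parity.cyclo E) κ ρ b (stabD P₀)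
      (∑ l ∈ T.filter (GA.Inr D), Parity.condExp ((Q l).inertia (AbsGal K)) ρ +
        ∑ l ∈ T.filter (fun l => l ∣ D),
          Parity.quotDim (stabD (Q l)) ((Q l).inertia (AbsGal K)) ρ) := by
  have hκκ : ∀ g, κ (κ g) = g := GA.kap_kap hc hκ
  have hodd : ∀ g : AbsGal K, (2 : ℤ_[2]) ∣ cyc g - 1 := PA.isChar_cyc.odd
  obtain ⟨N₀, hNn, hNF, hNo, hκN, hNI, hpro⟩ := exists_n0 (KR.isFull_K T) (χ := cyc)
    PA.isChar_cyc.mul PA.isChar_cyc.one hodd hκκ hb hρ
  obtain ⟨T₁, hT₁, hex⟩ := QU.exists_inst.{u, v} hK hc hκ hNF hκN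
  have hTT : T ⊆ T ∪ T₁ ∪ D.primeFactors :=
    Finset.subset_union_left.trans Finset.subset_union_left
  have hTD : D.primeFactors ⊆ T ∪ T₁ ∪ D.primeFactors := Finset.subset_union_right
  have hT1 : T₁ ⊆ T ∪ T₁ ∪ D.primeFactors :=
    Finset.subset_union_right.trans Finset.subset_union_left
  obtain ⟨T', hT'⟩ : ∃ T', T' = T ∪ T₁ ∪ D.primeFactors := ⟨_, rfl⟩
  rw [← hT'] at hTT hTD hT1
  have hcase : ∀ l ∈ T', l ∈ T ∨ Spl D l ∨ (l.Prime ∧ l ∣ D) := by
    intro l hl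
    rw [hT'] at hl
    rcases Finset.mem_union.1 hl with h | h
    · rcases Finset.mem_union.1 h with h | h
      · exact Or.inl h
      · exact Or.inr (Or.inl (hT₁ l h))
    · exact Or.inr (Or.inr ⟨Nat.prime_of_mem_primeFactors h, Nat.dvd_of_mem_primeFactors h⟩)
  have hprime : ∀ l ∈ T', l.Prime := fun l hl => by
    rcases hcase l hl with h | h | h
    · exact (hT l h).1
    · exact h.1
    · exact h.1
  have hodd' : ∀ l ∈ T', l ≠ 2 := fun l hl => by
    rcases hcase l hl with h | h | h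
    · exact (hT l h).2
    · exact h.2.1
    · rintro rfl
      have h4 := hK.mod
      have h5 := h.2
      omega
  obtain ⟨P, hP, h2, hPQ⟩ := exists_primes hP₀ hP2 hprime hodd' hQ hTT
  obtain ⟨iv, ivF, -, tr, I⟩ := hex T' hTT hT1 hTD P hP
  have hI' : ∀ σ ∈ inT K T', ρ σ = 1 := fun σ hσ => hρ.unram σ (HP.inT_mono hTT hσ)
  have hρ₀ : Gn.ConjDual 2 N₀ (inT K T') (fun g => toE E (cyc g)) κ ρ b :=
    ⟨hρ.cont, hpro, hI', hρ.symm, hρ.dual⟩
  obtain ⟨l, hl0, hl1, hlm⟩ := exists_unif E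
  obtain ⟨E', i1, i2, i3, ι, m', hx⟩ := exists_sqrtExt hl0 hl1 hlm
  refine parityBKA_ext (χ := cyc) hx hl0 ?_
  have hloc : IsLocalRing (OE E') := isLocal E'
  have hrf : Finite (IsLocalRing.ResidueField (OE E')) := res_finite
  have hρ' : Gn.ConjDual 2 N₀ (inT K T') (Parity.cyclo E') κ (mapRep ι ρ) (b.map ι) :=
    conjDual_ext hx hρ₀
  obtain ⟨L₀, C₀, hst, hdual, hbdd, hopn, hMC, hMth⟩ := hC E' ι m' l hl0 hl1 hlm hx
  obtain ⟨t, ht1, ht2, ht3⟩ := exists_func E'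
  let l' : OE E' := ⟨m', (hx.lt hl1).le⟩
  have hlat : Lat (b.map ι) l' t L₀ :=
    ⟨hx.ne hl0, hx.lt hl1, hx.max hl0 hl1 hlm, ht1, ht2, ht3, hρ'.symm, hdual, hbdd, hopn⟩
  have hfM : Finite (MN L₀ l' 1) := MN_finite hlat 1
  obtain ⟨C₁, g1, g2, g3, g4⟩ := SH.MatL.exists_C1 hlat hst hMC
  have hInv : QP.InvC κ (OE E') (actN l' 1 (fun g => mapRep ι ρ g) hst) (bN hlat 1) C₁ :=
    ⟨map_add C₁, map_smul C₁, g1, g2, g3⟩
  have hF2 : (2 : IsLocalRing.ResidueField (OE E')) = 0 := by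
    have h3 := (IsLocalRing.residue_eq_zero_iff (2 : OE E')).2 two_mem
    rwa [map_ofNat] at h3
  have hchar : CharP (IsLocalRing.ResidueField (OE E')) 2 :=
    (CharP.charP_iff_prime_eq_zero Nat.prime_two).2 (by exact_mod_cast hF2)
  let _ : Algebra (ZMod 2) (IsLocalRing.ResidueField (OE E')) := ZMod.algebra _ 2
  rw [← h2]
  intro L hL
  have h := QW.ari_inst I
  -- the prime divisors of `D`
  have hunD : ∀ p : T', (p : ℕ) ∉ T → (p : ℕ) ∣ D → ∀ g ∈ (P p).inertia (AbsGal K), ρ g = 1 :=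
    fun p hpT hpD g hg => hρ.unram g (HP.inertia_inT hP hTT p.2 hpT hg)
  have hsD : ∀ p : T', (p : ℕ) ∣ D →
      Parity.SemistableOn ((P p).inertia (AbsGal K)) (mapRep ι ρ) := by
    intro p hpD
    rw [ER.semi_ext ι]
    by_cases hpT : (p : ℕ) ∈ T
    · rw [hPQ p hpT]
      exact hR p hpT hpD
    · intro g hg
      rw [hunD p hpT hpD g hg, sub_self, mul_zero]
  -- the dimension is even
  obtain ⟨r₀, hr₀⟩ := KI.even_n I h hρ' hlat hst hInv
  have hn : Even n := ⟨r₀, by rw [KI.two_r hlat hr₀, two_mul]⟩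
  -- the places of `T'`
  have hloc : ∀ p : T', LocF c κ P N₀ ivF hlat hst C₁ (some (some p))
      (famL c κ T' P N₀ (mapRep ι ρ) (b.map ι) h.h2 L (some (some p)))
      ((if GA.Inr D p then Parity.condExp ((P p).inertia (AbsGal K)) ρ else 0) +
        if (p : ℕ) ∣ D then Parity.quotDim (stabD (P p)) ((P p).inertia (AbsGal K)) ρ else 0) := by
    intro p
    rcases I.kinds p with hp | hp | hp
    · -- a prime number that splits
      rw [if_neg fun h3 => h3.2.2.2 hp.2.2.2, if_neg hp.2.2.1]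
      exact KI.locM_odd I h hρ' hlat hst hInv hL.2 hL.1 hp
    · -- a prime divisor of `D`
      rw [if_neg fun h3 => h3.2.2.1 hp, if_pos hp, Nat.zero_add,
        ← ER.quotDim_ext (ρ := ρ) hx hl0]
      exact ER.locM_pDE I h hρ' hlat hst hn hL.2 hL.1 hp (hsD p hp)
    · -- an inert prime number
      rw [if_pos hp, if_neg hp.2.2.1, Nat.add_zero]
      have hpT : (p : ℕ) ∈ T := by
        rcases hcase p p.2 with h3 | h3 | h3
        · exact h3
        · exact absurd h3.2.2.2 hp.2.2.2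
        · exact absurd h3.2 hp.2.2.1
      have hcn : Parity.CommOn ((P p).inertia (AbsGal K)) (mapRep ι ρ) ∨ n = 2 := by
        rw [hPQ p hpT, commOn_ext ι]
        exact hI p hpT hp
      rw [← condExp_ext (ρ := ρ) hx hl0]
      exact locF_inert I h hρ' hlat hst hL.2 hL.1 hn hp hcn
  have hloc2 : ∀ r, Nat.card (MN L₀ l' 1) = Nat.card (IsLocalRing.ResidueField (OE E')) ^ (2 * r) →
      LocF c κ P N₀ ivF hlat hst C₁ (some none)
        (famL c κ T' P N₀ (mapRep ι ρ) (b.map ι) h.h2 L (some none))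
        (Module.finrank E' L + r) := fun r hr =>
    KI.locM_dy I h hρ' hlat hst hL.2 hL.1 hr
  have hP1 := KI.hP_fam0 I h hρ' hlat hst hInv hL.2 hL.1 I.glob.glob.char.mul hloc2 hloc
  obtain ⟨f1, f2, f3, f4⟩ := QW.parity_inst I hρ' hlat hst hL.2 hL.1 hP1
  refine ⟨f1, f2, f3, ?_⟩
  have k1 := dimModulo_add hL.1 f1
  have k2 := finrank_cob (fun σ : stabD (K := K) (P 2) => mapRep ι ρ σ)
  have k3 : ∑ p : T', ((if GA.Inr D p then Parity.condExp ((P p).inertia (AbsGal K)) ρ else 0) +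
        if (p : ℕ) ∣ D then Parity.quotDim (stabD (P p)) ((P p).inertia (AbsGal K)) ρ else 0) =
      ∑ l ∈ T.filter (GA.Inr D), Parity.condExp ((Q l).inertia (AbsGal K)) ρ +
        ∑ l ∈ T.filter (fun l => l ∣ D),
          Parity.quotDim (stabD (Q l)) ((Q l).inertia (AbsGal K)) ρ := by
    rw [Finset.sum_add_distrib]
    congr 1
    · rw [Finset.sum_coe_sort T' (fun p : ℕ => if GA.Inr D p then
        Parity.condExp ((P p).inertia (AbsGal K)) ρ else 0), ← Finset.sum_filter]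
      have k4 : T'.filter (GA.Inr D) = T.filter (GA.Inr D) := by
        ext p
        rw [Finset.mem_filter, Finset.mem_filter]
        refine ⟨fun hp => ⟨?_, hp.2⟩, fun hp => ⟨hTT hp.1, hp.2⟩⟩
        rcases hcase p hp.1 with h3 | h3 | h3
        · exact h3
        · exact absurd h3.2.2.2 hp.2.2.2.2
        · exact absurd h3.2 hp.2.2.2.1
      rw [k4]
      refine Finset.sum_congr rfl fun p hp => ?_
      rw [hPQ p (Finset.mem_filter.1 hp).1]
    · rw [Finset.sum_coe_sort T' (fun p : ℕ => if p ∣ D then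
        Parity.quotDim (stabD (P p)) ((P p).inertia (AbsGal K)) ρ else 0), ← Finset.sum_filter]
      refine (Finset.sum_subset (Finset.filter_subset_filter _ hTT) fun p hp hp' => ?_).symm.trans
        (Finset.sum_congr rfl fun p hp => ?_)
      · have hp1 := Finset.mem_filter.1 hp
        have hpT : p ∉ T := fun h3 => hp' (Finset.mem_filter.2 ⟨h3, hp1.2⟩)
        exact quotDim_unram (hunD ⟨p, hp1.1⟩ hpT hp1.2)
      · rw [hPQ p (Finset.mem_filter.1 hp).1]
  rw [k3] at f4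
  change Parity.dimModulo (Parity.selmerBK (Parity.inertiaOffTwo K) (Parity.cyclo E') κ
      (mapRep ι ρ) (b.map ι) (stabD (P 2)) L) (Parity.coboundaries (mapRep ι ρ)) +
    Module.finrank E' (Parity.fixedBy (fun σ : AbsGal K => mapRep ι ρ σ)) ≡ _ [MOD 2]
  unfold Nat.ModEq
  obtain ⟨a₁, ha₁⟩ := hn
  obtain ⟨a₂, ha₂⟩ := f4
  omega

end Pool.Agent.Work.MP_787500_nt.QG
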