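import Mathlib
import Pool.Agent.Work.MP_787500_nt.QG.RDefs
import Pool.Agent.Work.MP_787500_nt.SH.GenDefs
import Pool.Agent.Work.MP_787500_nt.LX.X2_Ring

/-!
Residually symplectic representations satisfy `SH.HasL`.
-/

set_option autoImplicit false
set_option linter.unusedSectionVars false

namespace Pool.Agent.Work.MP_787500_nt.QG

open Matrix
open Pool.Agent.Work.MP_787500_nt.GP (OE bil)
open Pool.Agent.Work.MP_787500_nt.LX

universe v

section lat

variable {E E' : Type*} [NormedField E] [NormedAlgebra ℚ_[2] E] [NormedField E']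
  [NormedAlgebra ℚ_[2] E'] {ι : E →ₐ[ℚ_[2]] E'} {l : E} {m : E'} {n : ℕ}

/-- the vector `x + y m` -/
noncomputable def pm (ι : E →ₐ[ℚ_[2]] E') (m : E') (x y : Fin n → E) : Fin n → E' := fun i => ι (x i) + ι (y i) * m

theorem pm_add (x y x' y' : Fin n → E) :
    pm ι m (x + x') (y + y') = pm ι m x y + pm ι m x' y' := by
  funext i
  simp only [pm, Pi.add_apply, map_add]
  ring

theorem pm_zero : pm ι m (0 : Fin n → E) 0 = 0 := by
  funext i
  simp [pm]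

theorem pm_smul (h : SqrtExt ι l m) (p q : E) (x y : Fin n → E) :
    (ι p + ι q * m) • pm ι m x y = pm ι m (p • x + (q * l) • y) (p • y + q • x) := by
  funext i
  simp only [pm, Pi.smul_apply, Pi.add_apply, smul_eq_mul, map_add, map_mul, ← h.sq]
  ring

theorem pm_mulVec (A : Matrix (Fin n) (Fin n) E) (x y : Fin n → E) :
    A.map ι *ᵥ pm ι m x y = pm ι m (A *ᵥ x) (A *ᵥ y) := by
  funext i
  simp only [pm, mulVec, dotProduct, Matrix.map_apply, map_sum, map_mul, mul_add,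
    Finset.sum_add_distrib, Finset.sum_mul, mul_assoc]

theorem pm_sub (x y x' y' : Fin n → E) :
    pm ι m x y - pm ι m x' y' = pm ι m (x - x') (y - y') := by
  funext i
  simp only [pm, Pi.sub_apply, map_sub]
  ring

theorem bil_pm (h : SqrtExt ι l m) (b : Matrix (Fin n) (Fin n) E) (x y x' y' : Fin n → E) :
    bil (b.map ι) (pm ι m x y) (pm ι m x' y') =
      ι (bil b x x' + l * bil b y y') + ι (bil b x y' + bil b y x') * m := by
  unfold bil
  rw [pm_mulVec]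
  have h1 : ∀ u v : Fin n → E, ι (u ⬝ᵥ v) = ∑ i, ι (u i) * ι (v i) := by
    intro u v
    simp only [dotProduct, map_sum, map_mul]
  have h2 : (pm ι m x y) ⬝ᵥ (pm ι m (b *ᵥ x') (b *ᵥ y')) =
      ∑ i, (ι (x i) * ι ((b *ᵥ x') i) + (ι (y i) * ι ((b *ᵥ y') i)) * (m * m) +
        (ι (x i) * ι ((b *ᵥ y') i) + ι (y i) * ι ((b *ᵥ x') i)) * m) := by
    refine Finset.sum_congr rfl fun i _ => ?_
    simp only [pm]
    ring
  rw [h2, map_add, map_add, map_mul, h1, h1, h1, h1, ← h.sq, Finset.sum_add_distrib,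
    Finset.sum_add_distrib, ← Finset.sum_mul, ← Finset.sum_mul, Finset.sum_add_distrib]
  ring

theorem exists_pm (h : SqrtExt ι l m) (z : Fin n → E') : ∃ x y, z = pm ι m x y := by
  choose x y hz using fun i => h.split (z i)
  exact ⟨x, y, funext hz⟩

theorem pm_inj (h : SqrtExt ι l m) (hl0 : l ≠ 0) {x y x' y' : Fin n → E}
    (e : pm ι m x y = pm ι m x' y') : x = x' ∧ y = y' :=
  ⟨funext fun i => (h.inj hl0 (congrFun e i)).1, funext fun i => (h.inj hl0 (congrFun e i)).2⟩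

end lat

section main

variable {G : Type*} [Group G]

/-- the set `L` in `ResSympl` as a submodule -/
theorem exists_sub {E : Type*} [NormedField E] [NormedAlgebra ℚ_[2] E] [FiniteDimensional ℚ_[2] E]
    {n : ℕ} {b : Matrix (Fin n) (Fin n) E} {L : Set (Fin n → E)}
    (hL : ∀ x, x ∈ L ↔ ∀ y ∈ L, ‖x ⬝ᵥ (b *ᵥ y)‖ ≤ 1) :
    ∃ L₀ : Submodule (OE E) (Fin n → E), ∀ x, x ∈ L₀ ↔ x ∈ L := by
  have hult := Gn.ultra 2 E
  refine ⟨{ carrier := L
            add_mem' := fun {x y} hx hy => (hL _).2 fun z hz => ?_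
            zero_mem' := (hL _).2 fun z _ => ?_
            smul_mem' := fun a x hx => (hL _).2 fun z hz => ?_ }, fun x => Iff.rfl⟩
  · rw [add_dotProduct]
    exact (IsUltrametricDist.norm_add_le_max _ _).trans (max_le ((hL x).1 hx z hz) ((hL y).1 hy z hz))
  · rw [zero_dotProduct, norm_zero]
    exact zero_le_one
  · show ‖((a : E) • x) ⬝ᵥ (b *ᵥ z)‖ ≤ 1
    rw [smul_dotProduct, norm_smul]
    exact mul_le_one₀ a.2 (norm_nonneg _) ((hL x).1 hx z hz)

theorem hasL_res {E : Type v} [NormedField E] [NormedAlgebra ℚ_[2] E] [FiniteDimensional ℚ_[2] E]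
    {n : ℕ} {κ : G → G} {ρ : G →* Matrix (Fin n) (Fin n) E} {b : Matrix (Fin n) (Fin n) E}
    (h : Parity.ResSympl κ ρ b) : SH.HasL (fun _ => False) κ ρ b := by
  obtain ⟨L, C, h1, ⟨R, hR⟩, h3, h4, h5, h6, h7⟩ := h
  intro E' _ _ _ ι m l hl0 hl1 hlm hx
  have hult := Gn.ultra 2 E
  have hm0 : m ≠ 0 := hx.ne hl0
  have hm1 : ‖m‖ < 1 := hx.lt hl1
  have hmp : 0 < ‖m‖ := norm_pos_iff.2 hm0
  have hle := fun (x y : E) => hx.le_iff hl0 hl1 hlm (x := x) (y := y)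
  obtain ⟨L₀, hL₀⟩ := exists_sub h1
  have hd : ∀ x, x ∈ L₀ ↔ ∀ y ∈ L₀, ‖bil b x y‖ ≤ 1 := fun x => by
    rw [hL₀, h1]
    exact ⟨fun h8 y hy => h8 y ((hL₀ y).1 hy), fun h8 y hy => h8 y ((hL₀ y).2 hy)⟩
  -- multiples of the uniformizer
  have hsm : ∀ z, Parity.IsSmallIn L z → ∃ y ∈ L₀, z = (l : E) • y := by
    rintro z ⟨a, ha, y, hy, rfl⟩
    have h8 : ‖(l : E)⁻¹ * a‖ ≤ 1 := by
      rw [norm_mul, norm_inv, inv_mul_le_iff₀ (norm_pos_iff.2 hl0), mul_one]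
      exact hlm a ha
    refine ⟨((l : E)⁻¹ * a) • y, L₀.smul_mem (⟨(l : E)⁻¹ * a, h8⟩ : OE E) ((hL₀ y).2 hy), ?_⟩
    rw [smul_smul, mul_inv_cancel_left₀ hl0]
  let L' : Submodule (OE E') (Fin n → E') :=
    { carrier := {z | ∃ x ∈ L₀, ∃ y ∈ L₀, z = pm ι m x y}
      add_mem' := by
        rintro z z' ⟨x, hx1, y, hy, rfl⟩ ⟨x', hx', y', hy', rfl⟩
        exact ⟨x + x', L₀.add_mem hx1 hx', y + y', L₀.add_mem hy hy', (pm_add _ _ _ _).symm⟩
      zero_mem' := ⟨0, L₀.zero_mem, 0, L₀.zero_mem, pm_zero.symm⟩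
      smul_mem' := by
        rintro c z ⟨x, hx1, y, hy, rfl⟩
        obtain ⟨p, q, hc⟩ := hx.split (c : E')
        have h8 : ‖ι p + ι q * m‖ ≤ 1 := by
          rw [← hc]
          exact c.2
        obtain ⟨hp, hq⟩ := (hle p q).1 h8
        have hql : ‖q * (l : E)‖ ≤ 1 := by
          rw [norm_mul]
          exact mul_le_one₀ hq (norm_nonneg _) hl1.le
        refine ⟨p • x + (q * (l : E)) • y, L₀.add_mem (L₀.smul_mem (⟨p, hp⟩ : OE E) hx1)
          (L₀.smul_mem (⟨q * (l : E), hql⟩ : OE E) hy), p • y + q • x,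
          L₀.add_mem (L₀.smul_mem (⟨p, hp⟩ : OE E) hy) (L₀.smul_mem (⟨q, hq⟩ : OE E) hx1), ?_⟩
        have e1 : c • pm ι m x y = (c : E') • pm ι m x y := rfl
        rw [e1, hc, pm_smul hx] }
  have hmem : ∀ x y, pm ι m x y ∈ L' ↔ x ∈ L₀ ∧ y ∈ L₀ := by
    intro x y
    constructor
    · rintro ⟨x', hx', y', hy', e⟩
      obtain ⟨rfl, rfl⟩ := pm_inj hx hl0 e
      exact ⟨hx', hy'⟩
    · rintro ⟨hx1, hy⟩
      exact ⟨x, hx1, y, hy, rfl⟩
  -- products with `m`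
  have hpmm : ∀ x y : Fin n → E, pm ι m ((l : E) • x) ((l : E) • y) =
      m • pm ι m ((l : E) • y) x := by
    intro x y
    funext i
    simp only [pm, Pi.smul_apply, smul_eq_mul, map_mul, ← hx.sq]
    ring
  have hz0 : ∀ x : Fin n → E, bil b x (C *ᵥ x) = 0 := h5
  refine ⟨L', C.map ι, ?_, ?_, ⟨R, ?_⟩, ?_, ⟨?_, ?_, ?_, ?_⟩, fun g hg => absurd hg not_false⟩
  · rintro g z ⟨x, hx1, y, hy, rfl⟩
    rw [mapRep_apply, pm_mulVec]
    exact (hmem _ _).2 ⟨(hL₀ _).2 (h3 g x ((hL₀ x).1 hx1)), (hL₀ _).2 (h3 g y ((hL₀ y).1 hy))⟩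
  · intro z
    obtain ⟨x, y, rfl⟩ := exists_pm hx z
    rw [hmem]
    constructor
    · rintro ⟨hx1, hy⟩ w ⟨x', hx', y', hy', rfl⟩
      rw [bil_pm hx, hle]
      constructor
      · refine (IsUltrametricDist.norm_add_le_max _ _).trans (max_le ((hd x).1 hx1 _ hx') ?_)
        rw [norm_mul]
        exact mul_le_one₀ hl1.le (norm_nonneg _) ((hd y).1 hy _ hy')
      · exact (IsUltrametricDist.norm_add_le_max _ _).trans
          (max_le ((hd x).1 hx1 _ hy') ((hd y).1 hy _ hx'))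
    · intro hz
      have h8 : ∀ x' ∈ L₀, ‖bil b x x'‖ ≤ 1 ∧ ‖bil b y x'‖ ≤ 1 := by
        intro x' hx'
        have h9 := hz (pm ι m x' 0) ((hmem _ _).2 ⟨hx', L₀.zero_mem⟩)
        have h10 : ∀ u : Fin n → E, bil b u 0 = 0 := fun u => by
          unfold bil
          rw [mulVec_zero, dotProduct_zero]
        rw [bil_pm hx, hle, h10, h10, mul_zero, add_zero, zero_add] at h9
        exact h9
      exact ⟨(hd x).2 fun x' hx' => (h8 x' hx').1, (hd y).2 fun x' hx' => (h8 x' hx').2⟩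
  · rintro z ⟨x, hx1, y, hy, rfl⟩
    have hR0 : 0 ≤ R := (norm_nonneg _).trans (hR x ((hL₀ x).1 hx1))
    refine (pi_norm_le_iff_of_nonneg hR0).2 fun i => ?_
    show ‖ι (x i) + ι (y i) * m‖ ≤ R
    rw [hx.add]
    have h8 : ‖x i‖ ≤ R := (norm_le_pi_norm x i).trans (hR x ((hL₀ x).1 hx1))
    have h9 : ‖y i‖ ≤ R := (norm_le_pi_norm y i).trans (hR y ((hL₀ y).1 hy))
    refine max_le h8 ?_
    calc ‖y i‖ * ‖m‖ ≤ R * 1 := mul_le_mul h9 hm1.le (norm_nonneg _) hR0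
      _ = R := mul_one R
  · -- the lattice is open
    have hopn : ∃ r : ℝ, 0 < r ∧ ∀ x : Fin n → E, ‖x‖ < r → x ∈ L₀ := by
      obtain ⟨B, hB, hB'⟩ : ∃ B : ℝ, 0 < B ∧ ∀ y : Fin n → E, ‖b *ᵥ y‖ ≤ B * ‖y‖ := by
        have hcn : Continuous fun y : Fin n → E => b *ᵥ y := by fun_prop
        refine ⟨∑ i, ∑ j, ‖b i j‖ + 1, by positivity, fun y => ?_⟩
        refine (pi_norm_le_iff_of_nonneg (by positivity)).2 fun i => ?_
        show ‖∑ j, b i j * y j‖ ≤ _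
        refine (norm_sum_le _ _).trans ?_
        have e1 : ∑ j, ‖b i j * y j‖ ≤ (∑ j, ‖b i j‖) * ‖y‖ := by
          rw [Finset.sum_mul]
          refine Finset.sum_le_sum fun j _ => ?_
          rw [norm_mul]
          exact mul_le_mul_of_nonneg_left (norm_le_pi_norm y j) (norm_nonneg _)
        have e2 : ∑ j, ‖b i j‖ ≤ ∑ i, ∑ j, ‖b i j‖ :=
          Finset.single_le_sum (f := fun i => ∑ j, ‖b i j‖)
            (fun i _ => Finset.sum_nonneg fun j _ => norm_nonneg _) (Finset.mem_univ i)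
        refine e1.trans (mul_le_mul_of_nonneg_right (by linarith) (norm_nonneg _))
      refine ⟨1 / (B * (|R| + 1) * (n + 1)), by positivity, fun x hx1 => (hd x).2 fun y hy => ?_⟩
      have e1 : ‖bil b x y‖ ≤ n * (‖x‖ * ‖b *ᵥ y‖) := by
        unfold bil
        show ‖∑ i, x i * (b *ᵥ y) i‖ ≤ _
        refine (norm_sum_le _ _).trans ?_
        have e3 : ∀ i ∈ (Finset.univ : Finset (Fin n)), ‖x i * (b *ᵥ y) i‖ ≤ ‖x‖ * ‖b *ᵥ y‖ :=
          fun i _ => by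
            rw [norm_mul]
            exact mul_le_mul (norm_le_pi_norm x i) (norm_le_pi_norm _ i) (norm_nonneg _) (norm_nonneg _)
        refine (Finset.sum_le_card_nsmul _ _ _ e3).trans (le_of_eq ?_)
        rw [Finset.card_univ, Fintype.card_fin, nsmul_eq_mul]
      have e4 : ‖b *ᵥ y‖ ≤ B * (|R| + 1) := by
        refine (hB' y).trans (mul_le_mul_of_nonneg_left ?_ hB.le)
        have := (hR y ((hL₀ y).1 hy)).trans (le_abs_self R)
        linarith
      have hK : 0 < B * (|R| + 1) := by positivity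
      have e5 : ‖x‖ * (B * (|R| + 1) * (n + 1)) < 1 := by
        rwa [lt_div_iff₀ (by positivity)] at hx1
      refine e1.trans ?_
      have e6 : (n : ℝ) * (‖x‖ * ‖b *ᵥ y‖) ≤ (n + 1) * (‖x‖ * (B * (|R| + 1))) := by
        refine mul_le_mul (by linarith) (mul_le_mul_of_nonneg_left e4 (norm_nonneg _)) (by positivity)
          (by positivity)
      nlinarith
    obtain ⟨r, hr, hr'⟩ := hopn
    refine ⟨r * ‖m‖, by positivity, fun z hz => ?_⟩
    obtain ⟨x, y, rfl⟩ := exists_pm hx z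
    have h8 : ∀ i, ‖x i‖ < r ∧ ‖y i‖ < r := by
      intro i
      have h9 : ‖ι (x i) + ι (y i) * m‖ < r * ‖m‖ := (norm_le_pi_norm (pm ι m x y) i).trans_lt hz
      rw [hx.add, max_lt_iff] at h9
      refine ⟨h9.1.trans_le ?_, lt_of_mul_lt_mul_right h9.2 hmp.le⟩
      calc r * ‖m‖ ≤ r * 1 := mul_le_mul_of_nonneg_left hm1.le hr.le
        _ = r := mul_one r
    refine (hmem _ _).2 ⟨hr' x ?_, hr' y ?_⟩
    · exact (pi_norm_lt_iff hr).2 fun i => (h8 i).1
    · exact (pi_norm_lt_iff hr).2 fun i => (h8 i).2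
  · rintro z ⟨x, hx1, y, hy, rfl⟩
    rw [pm_mulVec]
    exact (hmem _ _).2 ⟨(hL₀ _).2 (h4 x ((hL₀ x).1 hx1)), (hL₀ _).2 (h4 y ((hL₀ y).1 hy))⟩
  · rintro z ⟨x, hx1, y, hy, rfl⟩
    obtain ⟨x', hx', e1⟩ := hsm _ (h6 x ((hL₀ x).1 hx1))
    obtain ⟨y', hy', e2⟩ := hsm _ (h6 y ((hL₀ y).1 hy))
    refine ⟨pm ι m ((l : E) • y') x', (hmem _ _).2 ⟨L₀.smul_mem l hy', hx'⟩, ?_⟩
    rw [pm_mulVec, pm_mulVec, pm_sub, e1, e2, hpmm]
  · rintro g z ⟨x, hx1, y, hy, rfl⟩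
    obtain ⟨x', hx', e1⟩ := hsm _ (h7 g x ((hL₀ x).1 hx1))
    obtain ⟨y', hy', e2⟩ := hsm _ (h7 g y ((hL₀ y).1 hy))
    refine ⟨pm ι m ((l : E) • y') x', (hmem _ _).2 ⟨L₀.smul_mem l hy', hx'⟩, ?_⟩
    rw [mapRep_apply, mapRep_apply, pm_mulVec, pm_mulVec, pm_mulVec, pm_mulVec, pm_sub, e1, e2, hpmm]
  · intro z
    obtain ⟨x, y, rfl⟩ := exists_pm hx z
    have h8 : bil b x (C *ᵥ y) + bil b y (C *ᵥ x) = 0 := by
      have e1 := hz0 (x + y)
      have e2 : bil b (x + y) (C *ᵥ (x + y)) = bil b x (C *ᵥ x) + bil b y (C *ᵥ y) +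
          (bil b x (C *ᵥ y) + bil b y (C *ᵥ x)) := by
        unfold bil
        simp only [mulVec_add, add_dotProduct, dotProduct_add]
        ring
      rw [e2, hz0, hz0, zero_add, zero_add] at e1
      exact e1
    rw [pm_mulVec, bil_pm hx, hz0, hz0, mul_zero, add_zero, map_zero, h8, map_zero, zero_mul,
      add_zero]

end main

end Pool.Agent.Work.MP_787500_nt.QG
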