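import Mathlib
import Pool.Agent.Work.MP_787500_nt.QF.FDefs
import Pool.Agent.Work.MP_787500_nt.QW.FDefs

/-!
Parity of Bloch-Kato Selmer groups of conjugate self-dual representations with ramification at split and inert primes:
definitions used in the statement of the theorem. The other definitions are in `PA/ParityDefs.lean`,
`GP/FinDefs.lean`, `HP/BKDefs.lean`, `LA/FDefs.lean`, `QF/FDefs.lean` and `QW/FDefs.lean`.
-/

set_option autoImplicit false

namespace Pool.Agent.Work.MP_787500_nt.Parity

open Matrix NumberField

/-- `-D` is a square modulo `l` (for a prime number `l` that does not divide `2 D`: `l` splits in the field of the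
square roots of `-D`) -/
def SqMod (D l : ℕ) : Prop := ∃ A : ℤ, (l : ℤ) ∣ A ^ 2 + D

section group

variable {G : Type*} [Group G] [TopologicalSpace G] {E : Type*} [NormedField E] {n : ℕ}

/-- One of the following holds. `n = 2` and the determinant is congruent to 1 modulo the maximal ideal. `ρ` is a twist
of the restriction of a symplectic representation. `S` holds, and either the image of `ρ` is pro-2, or the residue
field of `E` has two elements and `ρ` is pro-2 on a normal subgroup of index dividing 6. -/
def AdmissibleIf (S : Prop) (I J : Set G) (κ : G → G) (ρ : G →* Matrix (Fin n) (Fin n) E)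
    (b : Matrix (Fin n) (Fin n) E) : Prop :=
  (n = 2 ∧ ∀ σ, ‖(ρ σ).det - 1‖ < 1) ∨ SymplTwist I J κ ρ b ∨
    (S ∧ (ProTwoOn ⊤ ρ ∨ ((∀ x : E, ‖x‖ ≤ 1 → ‖x‖ < 1 ∨ ‖x - 1‖ < 1) ∧
      ∃ N : Subgroup G, N.Normal ∧ N.index ∣ 6 ∧ ProTwoOn N ρ)))

end group

end Pool.Agent.Work.MP_787500_nt.Parity
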