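import Mathlib
import Pool.Agent.Work.MP_787500_nt.QF.Fin3
import Pool.Agent.Work.MP_787500_nt.SH.GenDefs

/-!
The residual hypothesis for arbitrary finite sets of bad primes.

* `hasL_of`: `HasC` implies `SH.HasL`.
* `hasC_sympl'`: `QF.hasC_sympl` without the hypothesis that the elements of `T` split.
-/

set_option autoImplicit false
set_option linter.unusedSectionVars false

namespace Pool.Agent.Work.MP_787500_nt.QG

open Matrix NumberField
open Pool.Agent.Work.MP_787500_nt.PA (cyc toE)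
open Pool.Agent.Work.MP_787500_nt.GP
open Pool.Agent.Work.MP_787500_nt.LX
open Pool.Agent.Work.MP_787500_nt.KR (FSys big fullK fullD ParD)
open Pool.Agent.Work.MP_787500_nt.HP (IsQ Spl IsP cyQ)
open Pool.Agent.Work.MP_787500_nt.QF

universe u v

variable {K : Type u} [Field K] [NumberField K] {D : ℕ} {s : K}
  {c : AlgebraicClosure K ≃+* AlgebraicClosure K} {κ : AbsGal K →* AbsGal K} {T : Finset ℕ}

theorem hasL_of {E : Type v} [NormedField E] [NormedAlgebra ℚ_[2] E] {n : ℕ} {A : AbsGal K → Prop}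
    {ρ : AbsGal K →* Matrix (Fin n) (Fin n) E} {b : Matrix (Fin n) (Fin n) E}
    (h : HasC A κ ρ b) : SH.HasL A κ ρ b := by
  intro E' _ _ _ ι m l hl0 hl1 hlm hx
  obtain ⟨L, C, h1, h2, h3, h4, hM, hA⟩ := h E' ι m l hl0 hl1 hlm hx
  -- scalars congruent to 1
  have key : ∀ u : E', ‖u - 1‖ < 1 → ∀ x ∈ L, ∃ y ∈ L, u • x - x = m • y := by
    intro u hu x hx'
    have hm0 : m ≠ 0 := hx.ne hl0
    have hle : ‖u - 1‖ ≤ ‖m‖ := hx.max hl0 hl1 hlm _ hu
    have hn : ‖(u - 1) * m⁻¹‖ ≤ 1 := by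
      rw [norm_mul, norm_inv, ← div_eq_mul_inv, div_le_one (norm_pos_iff.2 hm0)]
      exact hle
    refine ⟨((u - 1) * m⁻¹) • x, L.smul_mem (⟨(u - 1) * m⁻¹, hn⟩ : OE E') hx', ?_⟩
    rw [smul_smul, show m * ((u - 1) * m⁻¹) = u - 1 by field_simp, sub_smul, one_smul]
  refine ⟨L, C, h1, h2, h3, h4, ⟨hM.st, fun x hx' => ?_, fun g x hx' => ?_, hM.alt⟩,
    fun g hg hal x hx' => ?_⟩
  · obtain ⟨u, hu, h5⟩ := hM.sq
    rw [mulVec_mulVec, h5, smul_mulVec, one_mulVec]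
    exact key u hu x hx'
  · obtain ⟨u, hu, h5⟩ := hM.com g
    rw [mulVec_mulVec, mulVec_mulVec, h5, smul_mulVec]
    refine key u hu _ ?_
    rw [← mulVec_mulVec]
    exact h1 g _ (hM.st x hx')
  · obtain ⟨u, hu, h5⟩ := hA g hg hal
    rw [mulVec_mulVec, h5, smul_mulVec, one_mulVec]
    exact key u hu x hx'

theorem inD_inTc' (hT : ∀ l ∈ T, l.Prime ∧ ¬ l ∣ D) (hK : IsQ K D s) {g : AbsGal K} (hg : InD c D g) :
    g ∈ Parity.inTc K T c := by
  obtain ⟨p, hp, Q, hQ, hpQ, hi⟩ := hg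
  have hpp := Nat.prime_of_mem_primeFactors hp
  have hp2 : p ≠ 2 := by
    rintro rfl
    have h3 := Nat.dvd_of_mem_primeFactors hp
    have h4 := hK.mod
    omega
  refine ⟨Q, hQ, KS.two_notMem hpp hp2 hQ hpQ, fun l hl h => ?_, fun x y hxy => ?_⟩
  · have h1 : ((l : ℤ) : 𝓞 (AlgebraicClosure K)) ∈ Q := by
      rw [Int.cast_natCast]
      exact h
    rw [HP.nat_mem hpp hQ hpQ] at h1
    have h2 : p ∣ l := by exact_mod_cast h1
    obtain ⟨g1, g3⟩ := hT l hl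
    rw [(Nat.prime_dvd_prime_iff_eq hpp g1).1 h2] at hp
    exact g3 (Nat.dvd_of_mem_primeFactors hp)
  · have h1 := hi x
    have h2 : HP.og (KS.iK K g * c) x = y := RingOfIntegers.ext hxy.symm
    rwa [h2] at h1

theorem hasC_symplJ (hK : IsQ K D s) (hc : PA.IsConj s c)
    (hκ : ∀ (σ : AbsGal K) (x : AlgebraicClosure K), κ σ x = c (σ (c x)))
    {E : Type v} [NormedField E] [NormedAlgebra ℚ_[2] E]
    [FiniteDimensional ℚ_[2] E] {n : ℕ} {J : Set (AbsGal K)}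
    {ρ : AbsGal K →* Matrix (Fin n) (Fin n) E} {b : Matrix (Fin n) (Fin n) E} (hb : b.det ≠ 0)
    (hρ : Parity.IsDualRep (inT K T) (Parity.cyclo E) κ ρ b)
    (hS : Parity.SymplTwist (inT K T) J κ ρ b) : HasC (fun g => g ∈ J) κ ρ b := by
  obtain ⟨χ, C, hχc, hχI, hχ, hCC, hbC, hcom, hJ⟩ := hS
  intro E' _ _ _ ι m l hl0 hl1 hlm hx
  have hult := Gn.ultra 2 E'
  have hn1 : ∀ g, ‖χ g‖ = 1 := by
    intro g
    have hu := Gn.ultra 2 E
    have h1 : χ g = χ g - 1 + 1 := by ring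
    rw [h1, IsUltrametricDist.norm_add_eq_max_of_norm_ne_norm (by
      rw [norm_one]
      exact (hχ g).1.ne), norm_one, max_eq_right (hχ g).1.le]
  have hne : ∀ g, χ g ≠ 0 := by
    intro g
    rw [← norm_pos_iff, hn1]
    exact one_pos
  let ρ₀ : AbsGal K →* Matrix (Fin n) (Fin n) E :=
    { toFun := fun g => χ g • ρ g
      map_one' := by rw [map_one, map_one, one_smul]
      map_mul' := fun g h => by rw [map_mul, map_mul, smul_mul_smul_comm] }
  have hr0 : ∀ g, ρ₀ g = χ g • ρ g := fun g => rfl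
  have hd : ∀ g, (ρ g)ᵀ * b * ρ (κ g) = toE E (cyc g) • b := hρ.dual
  have hd0 : ∀ g, (ρ₀ g)ᵀ * b * ρ₀ (κ g) = toE E (cyc g) • b := by
    intro g
    rw [hr0, hr0, transpose_smul, Matrix.smul_mul, smul_mul_smul_comm, hd, mul_comm, (hχ g).2,
      one_smul]
  have hC0 : ∀ g, C * ρ₀ (κ g) = ρ₀ g * C := by
    intro g
    rw [hr0, hr0, Matrix.mul_smul, Matrix.smul_mul, hcom]
  have hcont : Continuous ρ₀ := hχc.smul hρ.cont
  have hunr : ∀ σ ∈ inT K T, ρ₀ σ = 1 := by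
    intro σ hσ
    rw [hr0, hχI σ hσ, hρ.unram σ hσ, one_smul]
  obtain ⟨L, h1, h2, h3, h4, hM⟩ := exists_lat_C (two_K hK hc hκ) (Sq := KS.sQ K T D)
    (fun W hW => KS.push hK hc hκ hW) (χq := cyQ) (fun g => HP.cyQ_emb _ g)
    (HP.cyQ_conj hc.sq (exists_conj_ne hK hc)) (fun σ τ => by
      unfold HP.cyQ
      rw [map_mul, Units.val_mul]) (KR.small_full (KR.isFull_K T) hcont hunr) hb hρ.symm hd0 hCC
    hC0 hbC hl0 hl1 hlm hx
  have hin : ∀ g, ‖(ι (χ g))⁻¹‖ ≤ 1 := by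
    intro g
    rw [norm_inv, hx.norm, hn1, inv_one]
  have hm0 : ∀ g, mapRep ι ρ g = (ι (χ g))⁻¹ • mapRep ι ρ₀ g := by
    intro g
    have h5 : mapRep ι ρ₀ g = ι (χ g) • mapRep ι ρ g := by
      ext i j
      show ι ((χ g • ρ g) i j) = ι (χ g) * ι (ρ g i j)
      rw [Matrix.smul_apply, smul_eq_mul, map_mul]
    rw [h5, smul_smul, inv_mul_cancel₀ ((map_ne_zero ι).2 (hne g)), one_smul]
  refine ⟨L, C.map ι, fun g x hx' => ?_, h2, h3, h4, ⟨hM.st, hM.sq, fun g => ?_, hM.alt⟩,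
    fun g hg _ => ?_⟩
  · rw [hm0, smul_mulVec]
    exact L.smul_mem (⟨(ι (χ g))⁻¹, hin g⟩ : OE E') (h1 g x hx')
  · have h5 : C * ρ (κ g) = (χ g * χ g) • (ρ g * C) := by
      have h6 := congrArg (fun A => χ g • A) (hcom g)
      simp only [smul_smul] at h6
      rwa [mul_comm (χ g) (χ (κ g)), (hχ g).2, one_smul] at h6
    refine ⟨ι (χ g * χ g), ?_, ?_⟩
    · rw [← map_one ι, ← map_sub, hx.norm]
      have hu := Gn.ultra 2 E
      have h6 : χ g * χ g - 1 = (χ g - 1) * χ g + (χ g - 1) := by ring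
      rw [h6]
      refine (IsUltrametricDist.norm_add_le_max _ _).trans_lt (max_lt ?_ (hχ g).1)
      rw [norm_mul, hn1, mul_one]
      exact (hχ g).1
    · have h6 := congrArg (fun A : Matrix (Fin n) (Fin n) E => A.map ι) h5
      have h7 : ((χ g * χ g) • (ρ g * C)).map ι =
          ι (χ g * χ g) • ((ρ g).map ι * C.map ι) := by
        rw [← Matrix.map_mul]
        ext i j
        show ι (((χ g * χ g) • (ρ g * C)) i j) = ι (χ g * χ g) * ι ((ρ g * C) i j)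
        rw [Matrix.smul_apply, smul_eq_mul, map_mul]
      simp only [Matrix.map_mul] at h6
      rw [h7] at h6
      exact h6
  · have h5 := hJ g hg
    refine ⟨(ι (χ g))⁻¹, ?_, ?_⟩
    · have h6 : (ι (χ g))⁻¹ - 1 = -((ι (χ g))⁻¹ * (ι (χ g) - 1)) := by
        rw [mul_sub, inv_mul_cancel₀ ((map_ne_zero ι).2 (hne g))]
        ring
      rw [h6, norm_neg, norm_mul]
      have h7 : ‖ι (χ g) - 1‖ < 1 := by
        rw [← map_one ι, ← map_sub, hx.norm]
        exact (hχ g).1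
      calc ‖(ι (χ g))⁻¹‖ * ‖ι (χ g) - 1‖ ≤ 1 * ‖ι (χ g) - 1‖ := by
            gcongr
            exact hin g
        _ < 1 := by rwa [one_mul]
    · have h6 := congrArg (fun A : Matrix (Fin n) (Fin n) E => A.map ι) h5
      have h7 : (χ g • (ρ g * C)).map ι = ι (χ g) • ((ρ g).map ι * C.map ι) := by
        rw [← Matrix.map_mul]
        ext i j
        show ι ((χ g • (ρ g * C)) i j) = ι (χ g) * ι ((ρ g * C) i j)
        rw [Matrix.smul_apply, smul_eq_mul, map_mul]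
      have h8 : ((1 : Matrix (Fin n) (Fin n) E)).map ι = 1 :=
        Matrix.map_one _ (map_zero _) (map_one _)
      rw [h7, h8] at h6
      rw [← h6, smul_smul, inv_mul_cancel₀ ((map_ne_zero ι).2 (hne g)), one_smul]
      rfl


theorem hasC_mono {E : Type v} [NormedField E] [NormedAlgebra ℚ_[2] E] {n : ℕ}
    {A A' : AbsGal K → Prop} {ρ : AbsGal K →* Matrix (Fin n) (Fin n) E}
    {b : Matrix (Fin n) (Fin n) E} (hA : ∀ g, A g → A' g) (h : HasC A' κ ρ b) : HasC A κ ρ b := by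
  intro E' _ _ _ ι m l hl0 hl1 hlm hx
  obtain ⟨L, C, h1, h2, h3, h4, hM, hA'⟩ := h E' ι m l hl0 hl1 hlm hx
  exact ⟨L, C, h1, h2, h3, h4, hM, fun g hg => hA' g (hA g hg)⟩

theorem hasC_sympl' (hK : IsQ K D s) (hc : PA.IsConj s c)
    (hκ : ∀ (σ : AbsGal K) (x : AlgebraicClosure K), κ σ x = c (σ (c x)))
    (hT : ∀ l ∈ T, l.Prime ∧ ¬ l ∣ D) {E : Type v} [NormedField E] [NormedAlgebra ℚ_[2] E]
    [FiniteDimensional ℚ_[2] E] {n : ℕ}
    {ρ : AbsGal K →* Matrix (Fin n) (Fin n) E} {b : Matrix (Fin n) (Fin n) E} (hb : b.det ≠ 0)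
    (hρ : Parity.IsDualRep (inT K T) (Parity.cyclo E) κ ρ b)
    (hS : Parity.SymplTwist (inT K T) (Parity.inTc K T c) κ ρ b) : HasC (InD c D) κ ρ b :=
  hasC_mono (fun _ hg => inD_inTc' hT hK hg) (hasC_symplJ hK hc hκ hb hρ hS)

end Pool.Agent.Work.MP_787500_nt.QG
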