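import Mathlib
import Pool.Agent.Work.MP_787500_nt.QG.Gen4
import Pool.Agent.Work.MP_787500_nt.QG.Res3
import Pool.Agent.Work.MP_787500_nt.QG.ResL
import Pool.Agent.Work.MP_787500_nt.QG.FDefs
import Pool.Agent.Work.MP_787500_nt.QG.EDefs
import Pool.Agent.Work.MP_787500_nt.QF.Final

/-!
The parity theorem for Bloch-Kato Selmer groups of conjugate self-dual representations, any residual image, ramified at
arbitrary odd primes.
-/

set_option autoImplicit false
set_option linter.unusedSectionVars false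

namespace Pool.Agent.Work.MP_787500_nt.QG

open Matrix NumberField
open Pool.Agent.Work.MP_787500_nt.GP
open Pool.Agent.Work.MP_787500_nt.PA (cyc toE)
open Pool.Agent.Work.MP_787500_nt.HP (IsQ Spl)
open Pool.Agent.Work.MP_787500_nt.QF (hasC_two)
open Pool.Agent.Work.MP_787500_nt.Parity (IsDualRep ProTwoOn AdmissibleR Admissible CommOn SqMod
  SemistableOn quotDim)

universe u v

theorem sqMod_of_dvd {D l : ℕ} (h : l ∣ D) : SqMod D l := by
  refine ⟨0, ?_⟩
  have h1 : (l : ℤ) ∣ (D : ℤ) := by exact_mod_cast h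
  simpa using h1

open scoped Classical in
theorem final4 (K : Type u) [Field K] [NumberField K] (hK : Module.finrank ℚ K = 2) (D : ℕ)
    (hD : Squarefree D) (hD8 : D % 8 = 7) (s : K) (hs : s ^ 2 = -(D : K))
    (P : Ideal (𝓞 (AlgebraicClosure K))) (hP : P.IsPrime)
    (hP2 : (2 : 𝓞 (AlgebraicClosure K)) ∈ P)
    (c : AlgebraicClosure K ≃+* AlgebraicClosure K) (hc : ∀ x, c (c x) = x)
    (hcs : c (algebraMap K (AlgebraicClosure K) s) = -algebraMap K (AlgebraicClosure K) s)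
    (κ : AbsGal K → AbsGal K)
    (hκ : ∀ (σ : AbsGal K) (x : AlgebraicClosure K), κ σ x = c (σ (c x)))
    (T : Finset ℕ) (hT : ∀ l ∈ T, l.Prime ∧ l ≠ 2)
    (Q : ℕ → Ideal (𝓞 (AlgebraicClosure K)))
    (hQ : ∀ l ∈ T, (Q l).IsPrime ∧ (l : 𝓞 (AlgebraicClosure K)) ∈ Q l)
    (E : Type v) [NormedField E] [NormedAlgebra ℚ_[2] E] [FiniteDimensional ℚ_[2] E] (n : ℕ)
    (ρ : AbsGal K →* Matrix (Fin n) (Fin n) E) (b : Matrix (Fin n) (Fin n) E) (hb : b.det ≠ 0)
    (hρ : IsDualRep (inT K T) (Parity.cyclo E) κ ρ b)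
    (hN : AdmissibleR (∀ l ∈ T, SqMod D l ∧ ¬ l ∣ D) (inT K T) κ ρ b)
    (hI : ∀ l ∈ T, SqMod D l ∨ CommOn ((Q l).inertia (AbsGal K)) ρ ∨ n = 2)
    (hR : ∀ l ∈ T, l ∣ D → SemistableOn ((Q l).inertia (AbsGal K)) ρ) :
    Parity.ParityBKA (Parity.inertiaOffTwo K) (Parity.cyclo E) κ ρ b (stabD P)
      (∑ l ∈ T.filter (fun l => ¬ SqMod D l), Parity.condExp ((Q l).inertia (AbsGal K)) ρ +
        ∑ l ∈ T.filter (fun l => l ∣ D), quotDim (stabD (Q l)) ((Q l).inertia (AbsGal K)) ρ) := by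
  let κ' : AbsGal K →* AbsGal K := MonoidHom.mk' κ fun g h => by
    ext x
    rw [hκ, AlgEquiv.mul_apply, AlgEquiv.mul_apply, hκ, hκ, hc]
  have hK' : IsQ K D s := ⟨hK, hs, hD, hD8⟩
  have hc' : PA.IsConj s c := ⟨hc, hcs⟩
  have hf : T.filter (fun l => ¬ SqMod D l) = T.filter (GA.Inr D) :=
    Finset.filter_congr fun l hl => ⟨fun h => ⟨(hT l hl).1, (hT l hl).2,
      fun hlD => h (sqMod_of_dvd hlD), h⟩, fun h => h.2.2.2⟩
  have hgen : SH.HasL (fun _ => False) κ' ρ b →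
      Parity.ParityBKA (Parity.inertiaOffTwo K) (Parity.cyclo E) κ ρ b (stabD P)
        (∑ l ∈ T.filter (fun l => ¬ SqMod D l), Parity.condExp ((Q l).inertia (AbsGal K)) ρ +
          ∑ l ∈ T.filter (fun l => l ∣ D),
            quotDim (stabD (Q l)) ((Q l).inertia (AbsGal K)) ρ) := by
    intro hL
    rw [hf]
    exact main_gen4 (κ := κ') hK' hc' hκ hP hP2 hT hQ hb hρ hL
      (fun l hl hli => (hI l hl).resolve_left hli.2.2.2) hR
  rcases hN with ⟨rfl, h⟩ | h | h | ⟨hS, h⟩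
  · exact hgen (hasL_of (hasC_two hb hρ h _))
  · exact hgen (hasL_res h)
  · refine hgen (hasL_of (hasC_mono (A' := fun g => g ∈ (∅ : Set (AbsGal K)))
      (fun _ h0 => h0.elim) (hasC_symplJ hK' hc' hκ hb hρ ?_)))
    obtain ⟨χ, C, h1, h2, h3, h4, h5, h6⟩ := h
    exact ⟨χ, C, h1, h2, h3, h4, h5, h6, fun σ hσ => absurd hσ (Set.notMem_empty σ)⟩
  · have hN' : Admissible (inT K T) (Parity.inTc K T c) κ ρ b := by
      rcases h with h | h
      · exact Or.inl h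
      · exact Or.inr (Or.inr (Or.inr h))
    have h0 : T.filter (fun l => ¬ SqMod D l) = ∅ :=
      Finset.filter_eq_empty_iff.2 fun l hl h => h (hS l hl).1
    have h0' : T.filter (fun l => l ∣ D) = ∅ :=
      Finset.filter_eq_empty_iff.2 fun l hl h => (hS l hl).2 h
    rw [h0, Finset.sum_empty, h0', Finset.sum_empty]
    intro L hL
    obtain ⟨h1, h2, h3, h4, -⟩ := QF.final K hK D hD hD8 s hs P hP hP2 c hc hcs κ hκ T
      (fun l hl => ⟨(hT l hl).1, (hT l hl).2, (hS l hl).2, (hS l hl).1⟩) E n ρ b hb hρ hN' L hL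
    exact ⟨h1, h2, h3, h4⟩

end Pool.Agent.Work.MP_787500_nt.QG
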