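import Mathlib
import Pool.Agent.Work.MP_787500_nt.QU.Inst
import Pool.Agent.Work.MP_787500_nt.QU.UrV
import Pool.Agent.Work.MP_787500_nt.QV.Ind
import Pool.Agent.Work.MP_787500_nt.QV.App2
import Pool.Agent.Work.MP_787500_nt.LB.BK

/-!
The local conditions over the rational numbers for `V × V`: `L × L^⊥` at 2, all cocycles at infinity, and the
cocycles that are coboundaries on the inertia group at all odd primes. The Selmer space is that of Bloch and Kato
over `K`.
-/

set_option autoImplicit false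
set_option linter.unusedSectionVars false

namespace Pool.Agent.Work.MP_787500_nt.QG

open Matrix NumberField
open Pool.Agent.Work.MP_787500_nt.PA (cyc toE)
open Pool.Agent.Work.MP_787500_nt.GP
open Pool.Agent.Work.MP_787500_nt.KR (FSys Sm1 Sm2 IsChar Smooth Z1 big fullK fullQ fullC fullD zV ZV
  PerpV perpSub LocRep)
open Pool.Agent.Work.MP_787500_nt.HP (IsQ Spl IsP cyQ stb emb inr QDat)
open Pool.Agent.Work.MP_787500_nt.GA (HQ SQ jQ iQ)
open Pool.Agent.Work.MP_787500_nt.RQ (LocF)
open Pool.Agent.Work.MP_787500_nt.KS (iK)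
open Pool.Agent.Work.MP_787500_nt.QS (Two)
open Pool.Agent.Work.MP_787500_nt.QV (rho2 ind spE prE selE selK N1e)
open Pool.Agent.Work.MP_787500_nt.QU (SG Inst urV)

universe u v

variable {K : Type u} [Field K] [NumberField K] {D : ℕ} {s : K}
  {c : AlgebraicClosure K ≃+* AlgebraicClosure K} {κ : AbsGal K →* AbsGal K} {T : Finset ℕ}
  {P : ℕ → Ideal (𝓞 (AlgebraicClosure K))} {N₀ : Subgroup (AbsGal K)}
  {iv ivF : ∀ w : Option T, (stb (HP.PP P w) → stb (HP.PP P w) → A0) → A0}
  {tr : (((AlgebraicClosure K ≃+* AlgebraicClosure K) → (AlgebraicClosure K ≃+* AlgebraicClosure K) →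
    (AlgebraicClosure K ≃+* AlgebraicClosure K) → A0) ×
    (∀ i : Option (Option T), HQ c P i → HQ c P i → A0)) →+ A0}

/-- an isomorphism of the decomposition groups at 2 over `K` and over the rational numbers -/
structure Iso2 (P : ℕ → Ideal (𝓞 (AlgebraicClosure K))) (N₀ : Subgroup (AbsGal K))
    (e : stabD (P 2) ≃* stb (P 2)) : Prop where
  val : ∀ d, ((e d : stb (P 2)) : AlgebraicClosure K ≃+* AlgebraicClosure K) = iK K (d : AbsGal K)
  sys : ∀ W : Subgroup (stb (P 2)),
    (big (fullD (stabD (P 2))) (N₀.subgroupOf (stabD (P 2)))).mem (W.comap e.toMonoidHom) ↔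
      (big (fullC (stb (P 2))) ((N₀.map (iK K)).subgroupOf (stb (P 2)))).mem W

theorem exists_iso2 (I : Inst.{u, v} s c κ D T P N₀ iv ivF tr) : ∃ e, Iso2 P N₀ e := by
  classical
  have hP0 : IsP (∅ : Finset ℕ) P := ⟨fun l hl => absurd hl (Finset.notMem_empty l),
    fun l hl => absurd hl (Finset.notMem_empty l),
    fun l hl => I.hP.isPrime l (Or.inr (hl.resolve_left (Finset.notMem_empty l))),
    fun l hl => I.hP.mem l (Or.inr (hl.resolve_left (Finset.notMem_empty l)))⟩
  obtain ⟨e, he⟩ := QF.lIso_split (T := ∅) I.hK (fun l hl => absurd hl (Finset.notMem_empty l)) hP0 N₀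
    none (Q := P 2) rfl (iv := fun _ => 0) (ivF := fun _ => 0) (fun _ => rfl)
  exact ⟨e, he.j, he.sys⟩

/-- the decomposition group at 2 over the rational numbers as a subgroup of the Galois group of `K` -/
noncomputable def j2 (e : stabD (P 2) ≃* stb (P 2)) : stb (P 2) →* AbsGal K :=
  (stabD (P 2)).subtype.comp e.symm.toMonoidHom

theorem j2_val {e : stabD (P 2) ≃* stb (P 2)} (he : Iso2 P N₀ e) (d : stb (P 2)) :
    iK K (j2 e d) = (d : AlgebraicClosure K ≃+* AlgebraicClosure K) := by
  show iK K ((e.symm d : stabD (P 2)) : AbsGal K) = _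
  rw [← he.val, e.apply_symm_apply]

theorem j2_e (e : stabD (P 2) ≃* stb (P 2)) (d : stabD (P 2)) : j2 e (e d) = (d : AbsGal K) := by
  show ((e.symm (e d) : stabD (P 2)) : AbsGal K) = _
  rw [e.symm_apply_apply]

variable {E : Type v} [NormedField E] [NormedAlgebra ℚ_[2] E] {n : ℕ}

/-- THE LOCAL CONDITIONS. -/
noncomputable def condE (c : AlgebraicClosure K ≃+* AlgebraicClosure K) (κ : AbsGal K →* AbsGal K)
    (T : Finset ℕ) (N₀ : Subgroup (AbsGal K)) (ρ : AbsGal K → Matrix (Fin n) (Fin n) E)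
    (b : Matrix (Fin n) (Fin n) E) (e : stabD (P 2) ≃* stb (P 2))
    (L : Submodule E (stabD (P 2) → Fin n → E)) :
    ∀ i : Option (Option T), Submodule E (HQ c P i → Fin (n + n) → E)
  | none => zV (SQ c P (N₀.map (iK K)) (none : Option (Option T)))
      (fun d => rho2 (iK K) c κ ρ (jQ c P (none : Option (Option T)) d))
  | some none => spE (big (fullC (stb (P 2))) ((N₀.map (iK K)).subgroupOf (stb (P 2))))
      (fun d => cyc (j2 e d)) b (fun d => ρ (κ (j2 e d)))
      (L.comap (LinearMap.funLeft E (Fin n → E) (e : stabD (P 2) → stb (P 2))))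
  | some (some l) => urV (SQ c P (N₀.map (iK K)) (some (some l)))
      ((inr (P l)).subgroupOf (stb (P l)))
      (fun d => rho2 (iK K) c κ ρ (jQ c P (some (some l)) d))

end Pool.Agent.Work.MP_787500_nt.QG
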