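import Mathlib
import Pool.Agent.Work.MP_787500_nt.QG.Gen3
import Pool.Agent.Work.MP_787500_nt.QG.Res3
import Pool.Agent.Work.MP_787500_nt.QG.FDefs
import Pool.Agent.Work.MP_787500_nt.QF.Final

/-!
The parity theorem for Bloch-Kato Selmer groups of conjugate self-dual representations, any residual image, ramified at
split and inert primes.
-/

set_option autoImplicit false
set_option linter.unusedSectionVars false

namespace Pool.Agent.Work.MP_787500_nt.QG

open Matrix NumberField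
open Pool.Agent.Work.MP_787500_nt.GP
open Pool.Agent.Work.MP_787500_nt.PA (cyc toE)
open Pool.Agent.Work.MP_787500_nt.HP (IsQ Spl)
open Pool.Agent.Work.MP_787500_nt.QF (hasC_two)
open Pool.Agent.Work.MP_787500_nt.Parity (IsDualRep ProTwoOn AdmissibleIf Admissible CommOn SqMod)

universe u v

open scoped Classical in
theorem final3 (K : Type u) [Field K] [NumberField K] (hK : Module.finrank ℚ K = 2) (D : ℕ)
    (hD : Squarefree D) (hD8 : D % 8 = 7) (s : K) (hs : s ^ 2 = -(D : K))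
    (P : Ideal (𝓞 (AlgebraicClosure K))) (hP : P.IsPrime)
    (hP2 : (2 : 𝓞 (AlgebraicClosure K)) ∈ P)
    (c : AlgebraicClosure K ≃+* AlgebraicClosure K) (hc : ∀ x, c (c x) = x)
    (hcs : c (algebraMap K (AlgebraicClosure K) s) = -algebraMap K (AlgebraicClosure K) s)
    (κ : AbsGal K → AbsGal K)
    (hκ : ∀ (σ : AbsGal K) (x : AlgebraicClosure K), κ σ x = c (σ (c x)))
    (T : Finset ℕ) (hT : ∀ l ∈ T, l.Prime ∧ l ≠ 2 ∧ ¬ l ∣ D)
    (Q : ℕ → Ideal (𝓞 (AlgebraicClosure K)))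
    (hQ : ∀ l ∈ T, (Q l).IsPrime ∧ (l : 𝓞 (AlgebraicClosure K)) ∈ Q l)
    (E : Type v) [NormedField E] [NormedAlgebra ℚ_[2] E] [FiniteDimensional ℚ_[2] E] (n : ℕ)
    (ρ : AbsGal K →* Matrix (Fin n) (Fin n) E) (b : Matrix (Fin n) (Fin n) E) (hb : b.det ≠ 0)
    (hρ : IsDualRep (inT K T) (Parity.cyclo E) κ ρ b)
    (hN : AdmissibleIf (∀ l ∈ T, SqMod D l) (inT K T) (Parity.inTc K T c) κ ρ b)
    (hI : ∀ l ∈ T, SqMod D l ∨ CommOn ((Q l).inertia (AbsGal K)) ρ ∨ n = 2) :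
    Parity.ParityBKA (Parity.inertiaOffTwo K) (Parity.cyclo E) κ ρ b (stabD P)
      (∑ l ∈ T.filter (fun l => ¬ SqMod D l), Parity.condExp ((Q l).inertia (AbsGal K)) ρ) := by
  by_cases hS : ∀ l ∈ T, SqMod D l
  · have hN' : Admissible (inT K T) (Parity.inTc K T c) κ ρ b := by
      rcases hN with h | h | ⟨-, h | h⟩
      · exact Or.inr (Or.inl h)
      · exact Or.inr (Or.inr (Or.inl h))
      · exact Or.inl h
      · exact Or.inr (Or.inr (Or.inr h))
    have h0 : T.filter (fun l => ¬ SqMod D l) = ∅ :=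
      Finset.filter_eq_empty_iff.2 fun l hl h => h (hS l hl)
    rw [h0, Finset.sum_empty]
    intro L hL
    obtain ⟨h1, h2, h3, h4, -⟩ := QF.final K hK D hD hD8 s hs P hP hP2 c hc hcs κ hκ T
      (fun l hl => ⟨(hT l hl).1, (hT l hl).2.1, (hT l hl).2.2, hS l hl⟩) E n ρ b hb hρ hN' L hL
    exact ⟨h1, h2, h3, h4⟩
  let κ' : AbsGal K →* AbsGal K := MonoidHom.mk' κ fun g h => by
    ext x
    rw [hκ, AlgEquiv.mul_apply, AlgEquiv.mul_apply, hκ, hκ, hc]
  have hK' : IsQ K D s := ⟨hK, hs, hD, hD8⟩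
  have hc' : PA.IsConj s c := ⟨hc, hcs⟩
  have hL : SH.HasL (QF.InD c D) κ' ρ b := by
    rcases hN with ⟨rfl, h⟩ | h | ⟨h, -⟩
    · exact hasL_of (hasC_two hb hρ h _)
    · exact hasL_of (hasC_sympl' hK' hc' hκ (fun l hl => ⟨(hT l hl).1, (hT l hl).2.2⟩) hb hρ h)
    · exact absurd h hS
  have hf : T.filter (fun l => ¬ SqMod D l) = T.filter (GA.Inr D) :=
    Finset.filter_congr fun l hl => ⟨fun h => ⟨(hT l hl).1, (hT l hl).2.1, (hT l hl).2.2, h⟩,
      fun h => h.2.2.2⟩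
  rw [hf]
  exact main_gen3 (κ := κ') hK' hc' hκ hP hP2 hT hQ hb hρ hL
    (fun l hl hli => (hI l hl).resolve_left hli.2.2.2)

end Pool.Agent.Work.MP_787500_nt.QG
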