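import Mathlib
import Pool.Agent.Work.MP_787500_nt.QG.Cond
import Pool.Agent.Work.MP_787500_nt.HP.AboveK
import Pool.Agent.Work.MP_787500_nt.KR.BigK
import Pool.Agent.Work.MP_787500_nt.KR.CocN

/-!
The Selmer space of `V × V` over the rational numbers and the Selmer space of Bloch and Kato of `V` over `K`.
-/

set_option autoImplicit false
set_option linter.unusedSectionVars false

namespace Pool.Agent.Work.MP_787500_nt.QG

open Matrix NumberField
open Pool.Agent.Work.MP_787500_nt.PA (cyc toE)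
open Pool.Agent.Work.MP_787500_nt.GP hiding PerpV ZV
open Pool.Agent.Work.MP_787500_nt.KR (FSys Sm1 Sm2 IsChar Smooth Z1 big fullK fullQ fullC fullD zV ZV
  PerpV perpSub LocRep)
open Pool.Agent.Work.MP_787500_nt.HP (IsQ Spl IsP cyQ stb emb inr QDat)
open Pool.Agent.Work.MP_787500_nt.GA (HQ SQ jQ iQ)
open Pool.Agent.Work.MP_787500_nt.RQ (LocF)
open Pool.Agent.Work.MP_787500_nt.KS (iK)
open Pool.Agent.Work.MP_787500_nt.QS (Two)
open Pool.Agent.Work.MP_787500_nt.QV (rho2 ind spE prE selE selK N1e)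
open Pool.Agent.Work.MP_787500_nt.QU (SG Inst urV)

universe u v

section gen

variable {E : Type*} [NormedField E] [NormedAlgebra ℚ_[2] E] {n : ℕ}

/-- a cocycle that is a coboundary on `x ↦ g⁻¹ x g` of a set is a coboundary on the set -/
theorem cob_conj {G : Type*} [Group G] {ρ : G →* Matrix (Fin n) (Fin n) E} {x : G → Fin n → E}
    (hx : ∀ s t, x (s * t) = x s + ρ s *ᵥ x t) (g : G) {A : Set G} {v : Fin n → E}
    (h : ∀ σ ∈ A, x (g⁻¹ * σ * g) = ρ (g⁻¹ * σ * g) *ᵥ v - v) {σ : G} (hσ : σ ∈ A) :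
    x σ = ρ σ *ᵥ (ρ g *ᵥ v - x g) - (ρ g *ᵥ v - x g) := by
  have hx1 : x 1 = 0 := by
    have h := hx 1 1
    rw [mul_one, map_one, one_mulVec] at h
    exact left_eq_add.1 h
  have hxi : ρ g *ᵥ x g⁻¹ = -x g := by
    have h8 := hx g g⁻¹
    rw [mul_inv_cancel, hx1] at h8
    rw [eq_neg_iff_add_eq_zero, add_comm]
    exact h8.symm
  have h7 : σ = g * (g⁻¹ * σ * g) * g⁻¹ := by group
  have h8 : ρ σ = ρ g * ρ (g⁻¹ * σ * g) * ρ g⁻¹ := by
    rw [← map_mul, ← map_mul, ← h7]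
  have hgi : ρ g⁻¹ * ρ g = 1 := by rw [← map_mul, inv_mul_cancel, map_one]
  have h9 : x σ = x g + ρ g *ᵥ x (g⁻¹ * σ * g) +
      (ρ g * ρ (g⁻¹ * σ * g)) *ᵥ x g⁻¹ := by
    conv_lhs => rw [h7]
    rw [hx, hx, map_mul]
  have h10 : x g⁻¹ = -(ρ g⁻¹ *ᵥ x g) := by
    have : ρ g⁻¹ *ᵥ (ρ g *ᵥ x g⁻¹) = x g⁻¹ := by rw [mulVec_mulVec, hgi, one_mulVec]
    rw [← this, hxi, mulVec_neg]
  rw [h9, h σ hσ, h10, h8, mulVec_sub, mulVec_sub, mulVec_neg]
  simp only [mulVec_mulVec, Matrix.mul_assoc, hgi, mul_one]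
  abel

/-- transport of orthogonal spaces -/
theorem perpV_iso {X X' : Type*} [Group X] [Group X'] {S : FSys X} {S' : FSys X'} {e : X ≃* X'}
    (hS : ∀ W : Subgroup X', S.mem (W.comap e.toMonoidHom) ↔ S'.mem W) {χ : X' → ℤ_[2]}
    {b : Matrix (Fin n) (Fin n) E} {A : X' → Matrix (Fin n) (Fin n) E}
    {L : Submodule E (X → Fin n → E)} {Y : X' → Fin n → E} :
    PerpV S' χ b A (L.comap (LinearMap.funLeft E (Fin n → E) (e : X → X'))) Y ↔
      PerpV S (fun d => χ (e d)) b (fun d => A (e d)) L (fun d => Y (e d)) := by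
  constructor
  · rintro ⟨h1, h2⟩
    refine ⟨(QU.zv_iso hS).2 h1, fun X hX => ?_⟩
    have h3 := h2 (fun d => X (e.symm d)) (by
      show (fun d => X (e.symm (e d))) ∈ L
      have h4 : (fun d => X (e.symm (e d))) = X := funext fun d => by rw [e.symm_apply_apply]
      rw [h4]
      exact hX)
    have h5 := (QU.be_iso hS).2 h3
    have h6 : (fun s t => cupE A b (fun d => X (e.symm d)) Y (e s) (e t)) =
        cupE (fun d => A (e d)) b X (fun d => Y (e d)) := by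
      funext s t
      simp only [cupE, e.symm_apply_apply]
    rw [h6] at h5
    exact h5
  · rintro ⟨h1, h2⟩
    refine ⟨(QU.zv_iso hS).1 h1, fun X hX => (QU.be_iso hS).1 ?_⟩
    exact h2 _ hX

end gen

variable {K : Type u} [Field K] [NumberField K] {D : ℕ} {s : K}
  {c : AlgebraicClosure K ≃+* AlgebraicClosure K} {κ : AbsGal K →* AbsGal K} {T : Finset ℕ}
  {P : ℕ → Ideal (𝓞 (AlgebraicClosure K))} {N₀ : Subgroup (AbsGal K)}
  {iv ivF : ∀ w : Option T, (stb (HP.PP P w) → stb (HP.PP P w) → A0) → A0}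
  {tr : (((AlgebraicClosure K ≃+* AlgebraicClosure K) → (AlgebraicClosure K ≃+* AlgebraicClosure K) →
    (AlgebraicClosure K ≃+* AlgebraicClosure K) → A0) ×
    (∀ i : Option (Option T), HQ c P i → HQ c P i → A0)) →+ A0}
  {E : Type v} [NormedField E] [NormedAlgebra ℚ_[2] E] {n : ℕ}

theorem inr_iff {Q : Ideal (𝓞 (AlgebraicClosure K))} {g : AbsGal K} :
    iK K g ∈ inr Q ↔ g ∈ Q.inertia (AbsGal K) := by
  rw [iK, HP.emb_inr, GA.pb_refl]

theorem n1e_iff (I : Inst.{u, v} s c κ D T P N₀ iv ivF tr) {x : AbsGal K → Fin n → E} :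
    N1e (SG K T N₀) (iK K) x ↔ KP.N1 (big (fullK (K := K) T) N₀) x := by
  constructor
  · intro h ε hε
    obtain ⟨W, hW, h1⟩ := h ε hε
    exact ⟨W.comap (iK K), QU.Inst.down hW, fun g w hw => h1 g w hw⟩
  · intro h ε hε
    obtain ⟨W, hW, h1⟩ := h ε hε
    obtain ⟨W', hW', h2⟩ := I.up hW
    refine ⟨W', hW', fun g w hw => ?_⟩
    obtain ⟨k, hk, h3⟩ := h2 _ hw
    obtain rfl : k = w := HP.emb_inj _ h3
    exact h1 g k hk

/-- the cyclotomic character at 2 -/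
theorem isChar_two (I : Inst.{u, v} s c κ D T P N₀ iv ivF tr) {e : stabD (P 2) ≃* stb (P 2)}
    (he : Iso2 P N₀ e) : IsChar (big (fullD (stabD (P 2))) (N₀.subgroupOf (stabD (P 2))))
      (fun d : stabD (P 2) => cyc (d : AbsGal K)) := by
  have h0 : IsChar (big (fullC (stb (P 2))) ((N₀.map (iK K)).subgroupOf (stb (P 2))))
      (fun d : stb (P 2) => cyQ (d : AlgebraicClosure K ≃+* AlgebraicClosure K)) :=
    (I.locD.{u, v, 0} (some none)).char
  have h1 : ∀ d : stabD (P 2), cyc (d : AbsGal K) =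
      cyQ ((e d : stb (P 2)) : AlgebraicClosure K ≃+* AlgebraicClosure K) := fun d => by
    rw [he.val]
    exact (HP.cyQ_emb _ _).symm
  refine ⟨?_, fun g h => ?_, fun m => ?_, fun g => ?_⟩
  · show cyc ((1 : stabD (P 2)) : AbsGal K) = 1
    rw [h1, map_one]
    exact h0.one
  · show cyc ((g * h : stabD (P 2)) : AbsGal K) = _
    rw [h1, h1, h1, map_mul]
    exact h0.mul _ _
  · obtain ⟨W, hW, h2⟩ := h0.cont m
    refine ⟨W.comap e.toMonoidHom, (he.sys W).2 hW, fun g w hw => ?_⟩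
    show (2 : ℤ_[2]) ^ m ∣ cyc ((g * w : stabD (P 2)) : AbsGal K) - _
    rw [h1, h1, map_mul]
    exact h2 _ _ hw
  · show (2 : ℤ_[2]) ∣ cyc (g : AbsGal K) - 1
    rw [h1]
    exact h0.odd _

/-- THE SELMER SPACES. -/
theorem selK_eq [FiniteDimensional ℚ_[2] E] (I : Inst.{u, v} s c κ D T P N₀ iv ivF tr)
    (hNo : IsOpen (N₀ : Set (AbsGal K))) (hNI : ∀ σ ∈ inT K T, σ ∈ N₀)
    {ρ : AbsGal K →* Matrix (Fin n) (Fin n) E} {b : Matrix (Fin n) (Fin n) E}
    (hρ : Gn.ConjDual 2 N₀ (inT K T) (fun g => toE E (cyc g)) κ ρ b)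
    {e : stabD (P 2) ≃* stb (P 2)} (he : Iso2 P N₀ e) {L : Submodule E (stabD (P 2) → Fin n → E)}
    (hL : ∀ x ∈ L, Parity.IsCocycle (fun d : stabD (P 2) => ρ d) x) :
    selK I.isTwo (SG K T N₀) (jQ c P) (fun g => ρ g)
        (condE c κ T N₀ (fun g => ρ g) b e L) =
      Parity.selmerBK (Parity.inertiaOffTwo K) (Parity.cyclo E) κ ρ b (stabD (P 2)) L := by
  have hκc : Continuous κ := PA.kappa_continuous I.hc.sq I.hκ
  have hκκ : ∀ g, κ (κ g) = g := GA.kap_kap I.hc I.hκ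
  have hNn := I.nor
  have hB : Gn.Base N₀ (inT K T) := KR.base_K hNn hNo hNI
  have hS := KR.isBig_K T N₀
  have hA : KR.ProRep N₀ (fun g => ρ g) := ⟨map_one ρ, map_mul ρ, hρ.cont, hρ.proP⟩
  have hA2 : KR.ProRep (N₀.subgroupOf (stabD (P 2))) (fun d : stabD (P 2) => ρ d) :=
    LB.proRep_rho hρ _
  have hB2 : KR.ProRep (N₀.subgroupOf (stabD (P 2))) (fun d : stabD (P 2) => ρ (κ d)) :=
    LB.proRep_kap hκc I.kN hρ _
  have hcoc : ∀ x : AbsGal K → Fin n → E, (Parity.IsCocycle ρ x ∧ ∀ σ ∈ inT K T, x σ = 0) ↔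
      ZV (big (fullK (K := K) T) N₀) (fun g => ρ g) x := fun x =>
    KR.big_coc hB hS hA hρ.unram
  have hχ2 := isChar_two I he
  have hcs : CompactSpace (stabD (P 2)) :=
    isCompact_iff_compactSpace.1 (stabD_closed (P 2)).isCompact
  have hperp : ∀ y : stabD (P 2) → Fin n → E,
      Parity.IsPerp (fun d : stabD (P 2) => Parity.cyclo E (d : AbsGal K)) (fun d => ρ (κ d)) b
        (L : Set (stabD (P 2) → Fin n → E)) y ↔
      PerpV (big (fullD (stabD (P 2))) (N₀.subgroupOf (stabD (P 2))))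
        (fun d : stabD (P 2) => cyc (d : AbsGal K)) b (fun d => ρ (κ d)) L y := fun y =>
    KR.big_perp (HP.basis_sub (HP.basis_K K)) inferInstance
      (hNo.preimage continuous_subtype_val) (KR.isBig_D N₀ (stabD_closed _)) hχ2 hA2 hB2 hL
  -- the place 2
  have h2pl : ∀ x : AbsGal K → Fin n → E,
      (fun d => ind (iK K) c κ x (jQ c P (some (none : Option T)) d)) ∈
        condE c κ T N₀ (fun g => ρ g) b e L (some none) ↔
      (fun d : stabD (P 2) => x d) ∈ L ∧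
        Parity.IsPerp (fun d : stabD (P 2) => Parity.cyclo E (d : AbsGal K)) (fun d => ρ (κ d)) b
          (L : Set (stabD (P 2) → Fin n → E)) (fun d : stabD (P 2) => x (κ d)) := by
    intro x
    have h1 := QV.ind_pr I.isTwo (jp := jQ c P (some (none : Option T))) (j := j2 e)
      (fun d => (j2_val he d).symm)
      (L := L.comap (LinearMap.funLeft E (Fin n → E) (e : stabD (P 2) → stb (P 2))))
      (L' := perpSub (big (fullC (stb (P 2))) ((N₀.map (iK K)).subgroupOf (stb (P 2))))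
        (fun d => cyc (j2 e d)) b (fun d => ρ (κ (j2 e d)))
        (L.comap (LinearMap.funLeft E (Fin n → E) (e : stabD (P 2) → stb (P 2))))) x
    refine h1.trans (and_congr ?_ ?_)
    · show (fun d => x (j2 e (e d))) ∈ L ↔ _
      simp only [j2_e]
    · rw [hperp]
      have h2 := perpV_iso he.sys (χ := fun d => cyc (j2 e d)) (b := b)
        (A := fun d => ρ (κ (j2 e d))) (L := L) (Y := fun d => x (κ (j2 e d)))
      refine h2.trans ?_
      simp only [j2_e]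
  ext x
  rw [QV.mem_selK, n1e_iff I]
  constructor
  · rintro ⟨h1, h2, h3⟩
    obtain ⟨hx, hx0⟩ := (hcoc x).2 ⟨h1, h2⟩
    obtain ⟨h4, h5⟩ := (h2pl x).1 (h3 (some none))
    refine ⟨hx, ?_, h4, h5⟩
    rintro _ ⟨Q, hQ, hQ2, rfl⟩
    by_cases h6 : ∀ l ∈ T, (l : 𝓞 (AlgebraicClosure K)) ∉ Q
    · refine ⟨0, fun σ hσ => ?_⟩
      rw [mulVec_zero, sub_zero]
      exact hx0 σ ⟨Q, hQ, hQ2, h6, hσ⟩
    · push Not at h6
      obtain ⟨l, hl, hlQ⟩ := h6
      obtain ⟨g, hg⟩ := HP.above_k I.hK (I.hP.prime l hl) I.hc I.hκ (I.hP.isPrime l (Or.inl hl))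
        (I.hP.mem l (Or.inl hl)) hQ hlQ
      obtain ⟨-, v, hv⟩ := h3 (some (some ⟨l, hl⟩))
      have hv' : ∀ k : AbsGal K, k ∈ (P l).inertia (AbsGal K) →
          ind (iK K) c κ x (iK K k) = rho2 (iK K) c κ (fun g => ρ g) (iK K k) *ᵥ v - v := by
        intro k hk
        have h7 : iK K k ∈ inr (P l) := inr_iff.2 hk
        exact hv ⟨iK K k, HP.inr_le_stb _ h7⟩ h7
      obtain ⟨v₀, hv₀⟩ : ∃ v₀, ∀ σ ∈ (Q.inertia (AbsGal K) : Set (AbsGal K)),
          x (g⁻¹ * σ * g) = ρ (g⁻¹ * σ * g) *ᵥ v₀ - v₀ := by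
        rcases hg with ⟨-, hg⟩ | ⟨-, hg⟩
        · refine ⟨QV.v1 v, fun σ hσ => ?_⟩
          have h7 := congrArg QV.v1 (hv' _ ((hg σ).1 hσ))
          rw [QV.ind_e I.isTwo, QV.v1_ap, QV.v1_sub, QV.v1_rho I.isTwo] at h7
          exact h7
        · refine ⟨QV.v2 v, fun σ hσ => ?_⟩
          have h7 := congrArg QV.v2 (hv' _ ((hg σ).1 hσ))
          rw [QV.ind_e I.isTwo, QV.v2_ap, QV.v2_sub, QV.v2_rho I.isTwo, hκκ] at h7
          exact h7
      exact ⟨ρ g *ᵥ v₀ - x g, fun σ hσ => cob_conj hx.2 g hv₀ hσ⟩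
  · rintro ⟨hx, h1, h4, h5⟩
    have hx0 : ∀ σ ∈ inT K T, x σ = 0 := by
      rintro σ ⟨Q, hQ, hQ2, hQT, hσ⟩
      obtain ⟨v, hv⟩ := h1 _ ⟨Q, hQ, hQ2, rfl⟩
      have h6 : x σ = ρ σ *ᵥ v - v := hv σ hσ
      rw [h6, hρ.unram σ ⟨Q, hQ, hQ2, hQT, hσ⟩, one_mulVec, sub_self]
    obtain ⟨hN1, hc2⟩ := (hcoc x).1 ⟨hx, hx0⟩
    have hcz : ∀ s t, ind (iK K) c κ x (s * t) = ind (iK K) c κ x s +
        rho2 (iK K) c κ (fun g => ρ g) s *ᵥ ind (iK K) c κ x t := QV.ind_coc I.isTwo hc2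
    have hzv : ZV (SG K T N₀) (rho2 (iK K) c κ (fun g => ρ g)) (ind (iK K) c κ x) :=
      ⟨QV.ind_N1 I.isTwo ⟨_, I.memQ, fun σ hσ => by
        obtain ⟨k, -, hk⟩ := hσ
        exact ⟨k, hk⟩⟩ ((n1e_iff I).2 hN1), hcz⟩
    have hzj : ∀ i, ZV (SQ c P (N₀.map (iK K)) i)
        (fun d => rho2 (iK K) c κ (fun g => ρ g) (jQ c P i d))
        (fun d => ind (iK K) c κ x (jQ c P i d)) := fun i => by
      refine ⟨fun ε hε => ?_, fun s t => ?_⟩
      · obtain ⟨W, hW, h6⟩ := hzv.1 ε hε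
        obtain ⟨W', hW', h7⟩ := I.jsm i W hW
        refine ⟨W', hW', fun g w hw => ?_⟩
        show ‖ind (iK K) c κ x (jQ c P i (g * w)) - _‖ < ε
        rw [map_mul]
        exact h6 _ _ (h7 w hw)
      · show ind (iK K) c κ x (jQ c P i (s * t)) = _
        rw [map_mul]
        exact hcz _ _
    refine ⟨hN1, hc2, fun i => ?_⟩
    match i with
    | none => exact hzj none
    | some none => exact (h2pl x).2 ⟨h4, h5⟩
    | some (some l) =>
      refine ⟨hzj (some (some l)), ?_⟩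
      have hQ := I.isPrime l
      have hQ2 := I.two_not l
      obtain ⟨v, hv⟩ := h1 _ ⟨P l, hQ, hQ2, rfl⟩
      by_cases hlD : (l : ℕ) ∣ D
      · obtain ⟨θ, hθ⟩ := I.theta (p := l)
          (Nat.mem_primeFactors.2 ⟨I.prime l, hlD, fun h0 => by
            have h6 := I.hK.mod
            rw [h0] at h6
            omega⟩)
        obtain ⟨w, hw⟩ := (QV.ind_ram (ρ := fun g => ρ g) I.isTwo (map_one ρ) (map_mul ρ) hθ hc2).2
          ⟨v, fun k hk => hv k (inr_iff.1 hk)⟩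
        exact ⟨w, fun d hd => hw _ hd⟩
      · obtain ⟨Q', hQ', hQ2', hQQ⟩ := HP.kap_inertia I.hc.sq I.hκ (P l) hQ hQ2
        obtain ⟨v', hv'⟩ := h1 _ ⟨Q', hQ', hQ2', rfl⟩
        obtain ⟨w, hw⟩ := (QV.ind_cob (ρ := fun g => ρ g) I.isTwo
          (I := (inr (P l) : Set (AlgebraicClosure K ≃+* AlgebraicClosure K)))
          (fun σ hσ => I.le_inr hlD hσ) x).2
          ⟨⟨v, fun k hk => hv k (inr_iff.1 hk)⟩, ⟨v', fun k hk => hv' _ (hQQ k (inr_iff.1 hk))⟩⟩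
        exact ⟨w, fun d hd => hw _ hd⟩

end Pool.Agent.Work.MP_787500_nt.QG
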