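import Mathlib
import Pool.Agent.Work.MP_787500_nt.QG.SelK
import Pool.Agent.Work.MP_787500_nt.QU.UrQ
import Pool.Agent.Work.MP_787500_nt.QV.LagN
import Pool.Agent.Work.MP_787500_nt.QV.Grow
import Pool.Agent.Work.MP_787500_nt.KR.L15
import Pool.Agent.Work.MP_787500_nt.KR.L09
import Pool.Agent.Work.MP_787500_nt.KR.L20

/-!
The local conditions `condE` are Lagrangian at all levels, finite dimensional, and contain the coboundaries.
-/

set_option autoImplicit false
set_option linter.unusedSectionVars false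

namespace Pool.Agent.Work.MP_787500_nt.QG

open Matrix NumberField
open Pool.Agent.Work.MP_787500_nt.PA (cyc toE)
open Pool.Agent.Work.MP_787500_nt.GP hiding PerpV ZV
open Pool.Agent.Work.MP_787500_nt.KR (FSys Sm1 Sm2 IsChar Smooth Z1 big fullK fullQ fullC fullD zV ZV
  PerpV perpSub LocRep)
open Pool.Agent.Work.MP_787500_nt.HP (IsQ Spl IsP cyQ stb emb inr QDat)
open Pool.Agent.Work.MP_787500_nt.GA (HQ SQ jQ iQ)
open Pool.Agent.Work.MP_787500_nt.RQ (LocF)
open Pool.Agent.Work.MP_787500_nt.KS (iK)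
open Pool.Agent.Work.MP_787500_nt.QS (Two Lag)
open Pool.Agent.Work.MP_787500_nt.QV (rho2 ind spE prE selE selK N1e QRep beN laN T2 blk J2 LagV)
open Pool.Agent.Work.MP_787500_nt.QU (SG Inst urV)

universe u v

variable {K : Type u} [Field K] [NumberField K] {D : ℕ} {s : K}
  {c : AlgebraicClosure K ≃+* AlgebraicClosure K} {κ : AbsGal K →* AbsGal K} {T : Finset ℕ}
  {P : ℕ → Ideal (𝓞 (AlgebraicClosure K))} {N₀ : Subgroup (AbsGal K)}
  {iv ivF : ∀ w : Option T, (stb (HP.PP P w) → stb (HP.PP P w) → A0) → A0}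
  {tr : (((AlgebraicClosure K ≃+* AlgebraicClosure K) → (AlgebraicClosure K ≃+* AlgebraicClosure K) →
    (AlgebraicClosure K ≃+* AlgebraicClosure K) → A0) ×
    (∀ i : Option (Option T), HQ c P i → HQ c P i → A0)) →+ A0}
  {E : Type v} [NormedField E] [NormedAlgebra ℚ_[2] E] {n : ℕ}
  {ρ : AbsGal K → Matrix (Fin n) (Fin n) E} {b : Matrix (Fin n) (Fin n) E} {l : OE E}
  {t : E →ₗ[ℚ_[2]] ℚ_[2]} {L₀ : Submodule (OE E) (Fin n → E)}

/-- restriction of a representation to a subgroup -/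
theorem locRep_comp {G X : Type*} [Group G] [Group X] {S : FSys G} {TP : FSys X} {jp : X →* G}
    {χ : G → ℤ_[2]} {m : ℕ} {M : Submodule (OE E) (Fin m → E)} {B : Matrix (Fin m) (Fin m) E}
    {A A' : G → Matrix (Fin m) (Fin m) E} (h : LocRep S χ M B A A')
    (hj : ∀ W, S.mem W → ∃ W', TP.mem W' ∧ ∀ w ∈ W', jp w ∈ W) :
    LocRep TP (fun d => χ (jp d)) M B (fun d => A (jp d)) (fun d => A' (jp d)) where
  one := by
    have h1 := h.one
    rw [map_one]
    exact h1
  mul s u := by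
    have h1 := h.mul (jp s) (jp u)
    rw [map_mul]
    exact h1
  one' := by
    have h1 := h.one'
    rw [map_one]
    exact h1
  mul' s u := by
    have h1 := h.mul' (jp s) (jp u)
    rw [map_mul]
    exact h1
  st d := h.st (jp d)
  st' d := h.st' (jp d)
  sm ε hε := by
    obtain ⟨W, hW, h1⟩ := h.sm ε hε
    obtain ⟨W', hW', h2⟩ := hj W hW
    exact ⟨W', hW', fun w hw x => h1 _ (h2 w hw) x⟩
  sm' ε hε := by
    obtain ⟨W, hW, h1⟩ := h.sm' ε hε
    obtain ⟨W', hW', h2⟩ := hj W hW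
    exact ⟨W', hW', fun w hw x => h1 _ (h2 w hw) x⟩
  dual d x y := h.dual (jp d) x y

variable [FiniteDimensional ℚ_[2] E] (I : Inst.{u, v} s c κ D T P N₀ iv ivF tr) (hl : Lat b l t L₀)
  (hr : LocRep (big (fullK (K := K) T) N₀) cyc L₀ b ρ (fun g => ρ (κ g)))

include I hl hr

/-- the quadratic representation -/
theorem qrep : QRep (SG K T N₀) cyQ l t (T2 L₀) (blk 0 b 0 0) (blk 0 b b 0) (J2 E n)
    (rho2 (iK K) c κ ρ) :=
  QV.qrep2 I.isTwo QU.Inst.chi I.chic (fun σ τ => by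
    unfold HP.cyQ
    rw [map_mul, Units.val_mul]) (fun _ hW => I.up hW) hl hr

/-- the representation at a place -/
theorem rep_pl (i : Option (Option T)) :
    LocRep (SQ c P (N₀.map (iK K)) i) (fun d => cyQ (jQ c P i d)) (T2 L₀) (blk 0 b b 0)
      (fun d => rho2 (iK K) c κ ρ (jQ c P i d))
      (fun d => J2 E n * rho2 (iK K) c κ ρ (jQ c P i d) * J2 E n) :=
  locRep_comp (qrep I hl hr).rep (I.jsm i)

/-- the representation of `K` at 2 -/
theorem rep_two {e : stabD (P 2) ≃* stb (P 2)} (he : Iso2 P N₀ e) :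
    LocRep (big (fullC (stb (P 2))) ((N₀.map (iK K)).subgroupOf (stb (P 2))))
      (fun d => cyc (j2 e d)) L₀ b (fun d => ρ (j2 e d)) (fun d => ρ (κ (j2 e d))) :=
  QV.locRep_j hr (j := j2 e) fun W hW => by
    obtain ⟨W', hW', h1⟩ := I.up hW
    obtain ⟨W'', hW'', h2⟩ := I.jsm (some none) W' hW'
    refine ⟨W'', hW'', fun w hw => ?_⟩
    obtain ⟨g, hg, h3⟩ := h1 _ (h2 w hw)
    have h4 : iK K (j2 e w) = iK K g := (j2_val he w).trans h3.symm
    rw [HP.emb_inj _ h4]
    exact hg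

variable {e : stabD (P 2) ≃* stb (P 2)} (he : Iso2 P N₀ e)
  {L : Submodule E (stabD (P 2) → Fin n → E)}

include he

/-- a pair of cocycles at 2 -/
theorem zv_pair {X : stb (P 2) → Fin (n + n) → E}
    (h1 : ZV (big (fullC (stb (P 2))) ((N₀.map (iK K)).subgroupOf (stb (P 2))))
      (fun d => ρ (j2 e d)) (fun d => QV.v1 (X d)))
    (h2 : ZV (big (fullC (stb (P 2))) ((N₀.map (iK K)).subgroupOf (stb (P 2))))
      (fun d => ρ (κ (j2 e d))) (fun d => QV.v2 (X d))) :
    ZV (SQ c P (N₀.map (iK K)) (some (none : Option T)))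
      (fun d => rho2 (iK K) c κ ρ (jQ c P (some (none : Option T)) d)) X := by
  have h3 : ∀ s t : stb (P 2), X (s * t) = X s + rho2 (iK K) c κ ρ (iK K (j2 e s)) *ᵥ X t := by
    intro s t
    apply QV.ap_ext
    · rw [QV.v1_add, QV.v1_rho I.isTwo]
      exact h1.2 s t
    · rw [QV.v2_add, QV.v2_rho I.isTwo]
      exact h2.2 s t
  have h4 : (fun d => rho2 (iK K) c κ ρ (jQ c P (some (none : Option T)) d)) =
      fun d : stb (P 2) => rho2 (iK K) c κ ρ (iK K (j2 e d)) := by
    funext d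
    exact congrArg _ (j2_val he d).symm
  rw [h4]
  refine ⟨fun ε hε => ?_, h3⟩
  obtain ⟨W, hW, h5⟩ := h1.1 ε hε
  obtain ⟨W', hW', h6⟩ := h2.1 ε hε
  refine ⟨W ⊓ W', FSys.inf _ hW hW', fun g w hw => ?_⟩
  rw [QV.norm_v, QV.v1_sub, QV.v2_sub]
  exact max_lt (h5 g w hw.1) (h6 g w hw.2)

/-- the cocycles of `L` at 2 over the rational numbers -/
theorem zv_L (hL : ∀ X ∈ L, ZV (big (fullD (stabD (P 2))) (N₀.subgroupOf (stabD (P 2))))
      (fun d => ρ d) X) :
    ∀ X ∈ L.comap (LinearMap.funLeft E (Fin n → E) (e : stabD (P 2) → stb (P 2))),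
      ZV (big (fullC (stb (P 2))) ((N₀.map (iK K)).subgroupOf (stb (P 2))))
        (fun d => ρ (j2 e d)) X := by
  intro X hX
  rw [← QU.zv_iso he.sys (A := fun d => ρ (j2 e d))]
  have h1 := hL _ hX
  simp only [j2_e]
  exact h1

theorem cob_L (hL0 : ∀ v, (fun d : stabD (P 2) => ρ d *ᵥ v - v) ∈ L) (v : Fin n → E) :
    (fun d => ρ (j2 e d) *ᵥ v - v) ∈
      L.comap (LinearMap.funLeft E (Fin n → E) (e : stabD (P 2) → stb (P 2))) := by
  show (fun d => ρ (j2 e (e d)) *ᵥ v - v) ∈ L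
  simp only [j2_e]
  exact hL0 v

/-- the elements of the local conditions are continuous cocycles -/
theorem cond_zv (hL : ∀ X ∈ L, ZV (big (fullD (stabD (P 2))) (N₀.subgroupOf (stabD (P 2))))
      (fun d => ρ d) X) (i : Option (Option T)) :
    ∀ X ∈ condE c κ T N₀ ρ b e L i, ZV (SQ c P (N₀.map (iK K)) i)
      (fun d => rho2 (iK K) c κ ρ (jQ c P i d)) X := by
  match i with
  | none => exact fun X hX => hX
  | some none => exact fun X hX => zv_pair I hl hr he (zv_L I hl hr he hL _ hX.1) hX.2.1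
  | some (some l) => exact fun X hX => hX.1

/-- the local conditions are finite dimensional -/
theorem cond_fd (hL : ∀ X ∈ L, ZV (big (fullD (stabD (P 2))) (N₀.subgroupOf (stabD (P 2))))
      (fun d => ρ d) X) (i : Option (Option T)) :
    FiniteDimensional E (condE c κ T N₀ ρ b e L i) := by
  have h0 := rep_pl I hl hr i
  have h1 : FiniteDimensional E (zV (SQ c P (N₀.map (iK K)) i)
      (fun d => rho2 (iK K) c κ ρ (jQ c P i d))) :=
    KR.zV_fd (I.locD.{u, v, 0} i).gens h0.one h0.mul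
  have h2 : condE c κ T N₀ ρ b e L i ≤ zV (SQ c P (N₀.map (iK K)) i)
      (fun d => rho2 (iK K) c κ ρ (jQ c P i d)) := cond_zv I hl hr he hL i
  exact Submodule.finiteDimensional_of_le h2

/-- the coboundaries -/
theorem cond_cob (hL : ∀ X ∈ L, ZV (big (fullD (stabD (P 2))) (N₀.subgroupOf (stabD (P 2))))
      (fun d => ρ d) X) (hL0 : ∀ v, (fun d : stabD (P 2) => ρ d *ᵥ v - v) ∈ L)
    (i : Option (Option T)) (v : Fin (n + n) → E) :
    (fun d => rho2 (iK K) c κ ρ (jQ c P i d) *ᵥ v - v) ∈ condE c κ T N₀ ρ b e L i := by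
  have h0 := rep_pl I hl hr i
  have h1 : ZV (SQ c P (N₀.map (iK K)) i) (fun d => rho2 (iK K) c κ ρ (jQ c P i d))
      (fun d => rho2 (iK K) c κ ρ (jQ c P i d) *ᵥ v - v) := QU.zv_cob
        (A := fun d => rho2 (iK K) c κ ρ (jQ c P i d)) ⟨h0.one, h0.mul, h0.sm⟩ v
  match i with
  | none => exact h1
  | some none =>
    have h2 : ∀ d : stb (P 2), jQ c P (some (none : Option T)) d = iK K (j2 e d) :=
      fun d => (j2_val he d).symm
    refine ⟨?_, ?_⟩
    · have h3 : (fun d => QV.v1 (rho2 (iK K) c κ ρ (jQ c P (some (none : Option T)) d) *ᵥ v - v)) =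
          fun d => ρ (j2 e d) *ᵥ QV.v1 v - QV.v1 v := by
        funext d
        rw [QV.v1_sub, h2, QV.v1_rho I.isTwo]
      rw [h3]
      exact cob_L I hl hr he hL0 _
    · have h3 : (fun d => QV.v2 (rho2 (iK K) c κ ρ (jQ c P (some (none : Option T)) d) *ᵥ v - v)) =
          fun d => ρ (κ (j2 e d)) *ᵥ QV.v2 v - QV.v2 v := by
        funext d
        rw [QV.v2_sub, h2, QV.v2_rho I.isTwo]
      rw [h3]
      exact KR.cob_perpV (rep_two I hl hr he) (zv_L I hl hr he hL) _
  | some (some l) => exact ⟨h1, v, fun d _ => rfl⟩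

/-- THE LOCAL CONDITIONS ARE LAGRANGIAN. -/
theorem cond_lag [IsLocalRing (OE E)]
    (hL : ∀ X ∈ L, ZV (big (fullD (stabD (P 2))) (N₀.subgroupOf (stabD (P 2)))) (fun d => ρ d) X)
    (hL0 : ∀ v, (fun d : stabD (P 2) => ρ d *ᵥ v - v) ∈ L) (N : ℕ) (i : Option (Option T)) :
    Lag (SQ c P (N₀.map (iK K)) i) (iQ c P ivF i)
      (fun d => actN l N (rho2 (iK K) c κ ρ) (qrep I hl hr).rep.st (jQ c P i d))
      (beN (qrep I hl hr) N)
      (fun a d => laN cyQ l t (blk 0 b 0 0) (rho2 (iK K) c κ ρ) (T2 L₀) N a (jQ c P i d))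
      (lamN (T2 L₀) l N (condE c κ T N₀ ρ b e L i)) := by
  have h0 := rep_pl I hl hr i
  have hnQ := I.norQ
  match i with
  | none =>
    exact QV.lag_N (I.locD none) (qrep I hl hr) I.glob.glob.char (I.jsm none)
      (QU.lagV_inf I.hc.sq h0 (qrep I hl hr).jj) N
  | some none =>
    exact QV.lag_sp I.isTwo QU.Inst.chi I.chic (fun σ τ => by
      unfold HP.cyQ
      rw [map_mul, Units.val_mul]) (j := j2 e) (by
        have h1 := I.locD.{u, v, v} (some none)
        have h2 : (fun d : stb (P 2) => cyc (j2 e d)) = fun d => cyQ (jQ c P (some (none : Option T)) d) := by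
          funext d
          rw [← QU.Inst.chi, j2_val he]
          rfl
        rw [h2]
        exact h1) hl hr (fun W hW => by
        obtain ⟨W', hW', h1⟩ := I.up hW
        obtain ⟨W'', hW'', h2⟩ := I.jsm (some none) W' hW'
        refine ⟨W'', hW'', fun w hw => ?_⟩
        obtain ⟨g, hg, h3⟩ := h1 _ (h2 w hw)
        have h4 : iK K (j2 e w) = iK K g := (j2_val he w).trans h3.symm
        rw [HP.emb_inj _ h4]
        exact hg) (zv_L I hl hr he hL) (cob_L I hl hr he hL0) (qrep I hl hr)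
      (fun d => (j2_val he d).symm) N
  | some (some q) =>
    exact QV.lag_N (I.locD (some (some q))) (qrep I hl hr) I.glob.glob.char (I.jsm (some (some q)))
      (QU.lagV_odd (HP.alg_closure K) (I.prime q) (I.odd q) (I.isPrime q) (I.natMem q)
        (by
          have := hnQ
          exact Subgroup.normal_subgroupOf) (I.opnL (some q)) h0 (qrep I hl hr).jj (QU.lat_det (qrep I hl hr).lat)).1 N

end Pool.Agent.Work.MP_787500_nt.QG
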