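import Mathlib
import Pool.Agent.Work.MP_787500_nt.QG.Lag
import Pool.Agent.Work.MP_787500_nt.GP.L20a_Dim

/-!
From the level 1 over the rational numbers to the parity of the Selmer group of Bloch and Kato.
-/

set_option autoImplicit false
set_option linter.unusedSectionVars false

namespace Pool.Agent.Work.MP_787500_nt.QG

open Matrix NumberField
open Pool.Agent.Work.MP_787500_nt.PA (cyc toE)
open Pool.Agent.Work.MP_787500_nt.GP hiding PerpV ZV
open Pool.Agent.Work.MP_787500_nt.KR (FSys Sm1 Sm2 IsChar Smooth Z1 big fullK fullQ fullC fullD zV ZV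
  PerpV perpSub LocRep)
open Pool.Agent.Work.MP_787500_nt.HP (IsQ Spl IsP cyQ stb emb inr QDat)
open Pool.Agent.Work.MP_787500_nt.GA (HQ SQ jQ iQ)
open Pool.Agent.Work.MP_787500_nt.RQ (LocF)
open Pool.Agent.Work.MP_787500_nt.KS (iK)
open Pool.Agent.Work.MP_787500_nt.QS (Two Lag)
open Pool.Agent.Work.MP_787500_nt.QV (rho2 ind spE prE selE selK N1e QRep beN laN T2 blk J2 LagV selNQ)
open Pool.Agent.Work.MP_787500_nt.QU (SG Inst urV)

universe u v

variable {K : Type u} [Field K] [NumberField K] {D : ℕ} {s : K}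
  {c : AlgebraicClosure K ≃+* AlgebraicClosure K} {κ : AbsGal K →* AbsGal K} {T : Finset ℕ}
  {P : ℕ → Ideal (𝓞 (AlgebraicClosure K))} {N₀ : Subgroup (AbsGal K)}
  {iv ivF : ∀ w : Option T, (stb (HP.PP P w) → stb (HP.PP P w) → A0) → A0}
  {tr : (((AlgebraicClosure K ≃+* AlgebraicClosure K) → (AlgebraicClosure K ≃+* AlgebraicClosure K) →
    (AlgebraicClosure K ≃+* AlgebraicClosure K) → A0) ×
    (∀ i : Option (Option T), HQ c P i → HQ c P i → A0)) →+ A0}
  {E : Type v} [NormedField E] [NormedAlgebra ℚ_[2] E] [FiniteDimensional ℚ_[2] E] {n : ℕ}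

/-- `κ` is compatible with the system -/
theorem ksys (I : Inst.{u, v} s c κ D T P N₀ iv ivF tr) (W : Subgroup (AbsGal K))
    (hW : (big (fullK (K := K) T) N₀).mem W) :
    ∃ W', (big (fullK (K := K) T) N₀).mem W' ∧ ∀ v ∈ W', κ v ∈ W := by
  obtain ⟨W', hW', h1⟩ := I.up hW
  refine ⟨W'.comap (iK K), QU.Inst.down hW', fun v hv => ?_⟩
  have hn := (SG K T N₀).normal hW'
  have h2 : iK K (κ v) ∈ W' := by
    rw [I.isTwo.kap]
    have h3 := hn.conj_mem (iK K v) hv c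
    have h4 : c⁻¹ = c := inv_eq_of_mul_eq_one_left I.isTwo.cc
    rwa [h4] at h3
  obtain ⟨g, hg, h3⟩ := h1 _ h2
  rwa [← HP.emb_inj _ h3]

variable {ρ : AbsGal K →* Matrix (Fin n) (Fin n) E} {b : Matrix (Fin n) (Fin n) E} {l : OE E}
  {t : E →ₗ[ℚ_[2]] ℚ_[2]} {L₀ : Submodule (OE E) (Fin n → E)}

/-- the representation -/
theorem rep_K (I : Inst.{u, v} s c κ D T P N₀ iv ivF tr)
    (hNo : IsOpen (N₀ : Set (AbsGal K))) (hNI : ∀ σ ∈ inT K T, σ ∈ N₀)
    (hρ : Gn.ConjDual 2 N₀ (inT K T) (fun g => toE E (cyc g)) κ ρ b)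
    (hst : ∀ g, ∀ x ∈ L₀, ρ g *ᵥ x ∈ L₀) :
    LocRep (big (fullK (K := K) T) N₀) cyc L₀ b (fun g => ρ g) (fun g => ρ (κ g)) :=
  KR.locRep_glob (KR.base_K I.nor hNo hNI) (KR.isBig_K T N₀) (ksys I) hρ hst

/-- FROM THE LEVEL 1 TO THE SELMER GROUP OF BLOCH AND KATO. -/
theorem bk_par [IsLocalRing (OE E)] (I : Inst.{u, v} s c κ D T P N₀ iv ivF tr)
    (hNo : IsOpen (N₀ : Set (AbsGal K))) (hNI : ∀ σ ∈ inT K T, σ ∈ N₀)
    (hρ : Gn.ConjDual 2 N₀ (inT K T) (fun g => toE E (cyc g)) κ ρ b) (hl : Lat b l t L₀)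
    (hr : LocRep (big (fullK (K := K) T) N₀) cyc L₀ b (fun g => ρ g) (fun g => ρ (κ g)))
    {e : stabD (P 2) ≃* stb (P 2)} (he : Iso2 P N₀ e) {L : Submodule E (stabD (P 2) → Fin n → E)}
    (hL : Parity.Between (Parity.coboundaries (fun σ : stabD (P 2) => ρ σ)) L
      (Parity.cocycles (fun σ : stabD (P 2) => ρ σ))) {δ : ℕ}
    (hP : EvPow (Nat.card (IsLocalRing.ResidueField (OE E)))
      (Nat.card (selNQ (SG K T N₀) (jQ c P) (rho2 (iK K) c κ (fun g => ρ g))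
        (condE c κ T N₀ (fun g => ρ g) b e L) (qrep I hl hr) 1) *
        Nat.card (IsLocalRing.ResidueField (OE E)) ^ δ)) :
    FiniteDimensional E L ∧ FiniteDimensional E (Parity.selmerBK (Parity.inertiaOffTwo K)
      (Parity.cyclo E) κ ρ b (stabD (P 2)) L) ∧
    Parity.coboundaries ρ ≤ Parity.selmerBK (Parity.inertiaOffTwo K) (Parity.cyclo E) κ ρ b
      (stabD (P 2)) L ∧
    Even (Module.finrank E (Parity.selmerBK (Parity.inertiaOffTwo K) (Parity.cyclo E) κ ρ b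
      (stabD (P 2)) L) + n + δ) := by
  have hκc : Continuous κ := PA.kappa_continuous I.hc.sq I.hκ
  have hNn := I.nor
  have hcs : CompactSpace (stabD (P 2)) :=
    isCompact_iff_compactSpace.1 (stabD_closed (P 2)).isCompact
  have hA2 : KR.ProRep (N₀.subgroupOf (stabD (P 2))) (fun d : stabD (P 2) => ρ d) :=
    LB.proRep_rho hρ _
  have hLc : ∀ X ∈ L, Parity.IsCocycle (fun d : stabD (P 2) => ρ d) X := fun X hX => hL.2 hX
  have hLz : ∀ X ∈ L, ZV (big (fullD (stabD (P 2))) (N₀.subgroupOf (stabD (P 2))))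
      (fun d => ρ d) X := fun X hX =>
    (KR.big_coc (KR.base_of inferInstance (hNo.preimage continuous_subtype_val))
      (KR.isBig_D N₀ (stabD_closed _)) hA2 (fun _ h => h.elim)).1 ⟨hLc X hX, fun _ h => h.elim⟩
  have hL0 : ∀ v, (fun d : stabD (P 2) => ρ d *ᵥ v - v) ∈ L := fun v => hL.1 ⟨v, fun _ => rfl⟩
  obtain ⟨h1, h2⟩ := QV.parity_E I.glob I.gens (qrep I hl hr) (cond_fd I hl hr he hLz)
    (cond_zv I hl hr he hLz) (fun i v => cond_cob I hl hr he hLz hL0 i v)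
    (fun N i => cond_lag I hl hr he hLz hL0 N i) hP
  have hq := (qrep I hl hr).rep
  obtain ⟨h3, h4⟩ := QV.finrank_selE (L := condE c κ T N₀ (fun g => ρ g) b e L) I.isTwo (map_one ρ)
    ⟨_, I.memQ, fun σ hσ => by
      obtain ⟨k, -, hk⟩ := hσ
      exact ⟨k, hk⟩⟩ (fun v => QU.zv_cob ⟨hq.one, hq.mul, hq.sm⟩ v)
    (fun i v => cond_cob I hl hr he hLz hL0 i v)
  rw [selK_eq I hNo hNI hρ he hLc] at h3 h4
  rw [h4] at h2
  refine ⟨?_, h3, ?_, h2⟩
  · have h0 := rep_two I hl hr he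
    have h5 : FiniteDimensional E (zV (big (fullC (stb (P 2)))
        ((N₀.map (iK K)).subgroupOf (stb (P 2)))) (fun d => ρ (j2 e d))) :=
      KR.zV_fd (I.locD.{u, v, 0} (some none)).gens h0.one h0.mul
    have h6 : ∀ X ∈ L, (fun d => X (e.symm d)) ∈ zV (big (fullC (stb (P 2)))
        ((N₀.map (iK K)).subgroupOf (stb (P 2)))) (fun d => ρ (j2 e d)) := fun X hX => by
      refine zv_L I hl hr he hLz _ ?_
      show (fun d => X (e.symm (e d))) ∈ L
      simp only [e.symm_apply_apply]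
      exact hX
    refine FiniteDimensional.of_injective
      (({ toFun := fun X => ⟨fun d => X.1 (e.symm d), h6 _ X.2⟩
          map_add' := fun X Y => rfl
          map_smul' := fun a X => rfl } : L →ₗ[E] zV (big (fullC (stb (P 2)))
        ((N₀.map (iK K)).subgroupOf (stb (P 2)))) (fun d => ρ (j2 e d)))) fun X Y hXY => ?_
    apply Subtype.ext
    funext d
    have h7 := congrFun (congrArg Subtype.val hXY) (e d)
    simp only [LinearMap.coe_mk, AddHom.coe_mk, e.symm_apply_apply] at h7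
    exact h7
  · rw [← selK_eq I hNo hNI hρ he hLc]
    rintro x ⟨v, hv⟩
    obtain rfl : x = fun d => ρ d *ᵥ v - v := funext hv
    have hx := QU.zv_cob (S := big (fullK (K := K) T) N₀) (A := fun g => ρ g) ⟨hr.one, hr.mul, hr.sm⟩ v
    refine ⟨(n1e_iff I).2 hx.1, hx.2, fun i => ?_⟩
    have h5 : ∀ σ, ind (iK K) c κ (fun d => ρ d *ᵥ v - v) σ =
        rho2 (iK K) c κ (fun g => ρ g) σ *ᵥ QV.ap v v - QV.ap v v := by
      intro σ
      rcases I.isTwo.cases σ with ⟨g, rfl⟩ | ⟨g, rfl⟩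
      · rw [QV.ind_e I.isTwo]
        apply QV.ap_ext
        · rw [QV.v1_ap, QV.v1_sub, QV.v1_rho I.isTwo, QV.v1_ap]
        · rw [QV.v2_ap, QV.v2_sub, QV.v2_rho I.isTwo, QV.v2_ap]
      · rw [QV.ind_ec I.isTwo]
        apply QV.ap_ext
        · rw [QV.v1_ap, QV.v1_sub, QV.v1_rhoc I.isTwo, QV.v2_ap, QV.v1_ap]
        · rw [QV.v2_ap, QV.v2_sub, QV.v2_rhoc I.isTwo, QV.v2_ap, QV.v1_ap]
    have h6 : (fun d => ind (iK K) c κ (fun d => ρ d *ᵥ v - v) (jQ c P i d)) =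
        fun d => rho2 (iK K) c κ (fun g => ρ g) (jQ c P i d) *ᵥ QV.ap v v - QV.ap v v :=
      funext fun d => h5 _
    show (fun d => ind (iK K) c κ (fun d => ρ d *ᵥ v - v) (jQ c P i d)) ∈ _
    rw [h6]
    exact cond_cob I hl hr he hLz hL0 i _

end Pool.Agent.Work.MP_787500_nt.QG
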